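import Pool.Agent.H5.CF.ClA
import Pool.Agent.H95.LBD.BkB
import Pool.Agent.H95.LBD.DecA

/-!
PROJECT CF (MP_0d9ad5_pr, note 2718), measure part. Connections off a finite set: BK estimates.
-/

namespace H5CF

open CF H5DF H95LBD MeasureTheory
open scoped ENNReal

variable {d : ℕ}

lemma off_eq (p : ℝ) (S : Finset (V d)) (x u : V d) :
    CF.off p S x u = perc d p (SCn {x} ((S : Set (V d))ᶜ) u) := by
  unfold CF.off
  congr 1
  ext ζ
  simp [SCn, Cn]

lemma off_symm (p : ℝ) (S : Finset (V d)) (x u : V d) : CF.off p S x u = CF.off p S u x := by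
  unfold CF.off
  congr 1
  ext ζ
  exact ⟨fun h => SimpleGraph.Reachable.symm h, fun h => SimpleGraph.Reachable.symm h⟩

lemma off_anti {p : ℝ} {S S' : Finset (V d)} (h : S ⊆ S') (x u : V d) :
    CF.off p S' x u ≤ CF.off p S x u := by
  refine measure_mono fun ζ (hζ : Cn ((S' : Set (V d))ᶜ) ζ x u) => ?_
  refine hζ.mono ?_ fun _ h => h
  intro y hy hyS
  exact hy (h hyS)

lemma off_le_tau {p : ℝ} (h0 : 0 ≤ p) (h1 : p ≤ 1) (S : Finset (V d)) (x u : V d) :
    CF.off p S x u ≤ tau d p (u - x) := by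
  rw [← prob_cluster_mem p h0 h1 x u]
  exact measure_mono fun ζ hζ => cluster_cut_sub _ ζ x hζ

lemma off_empty {p : ℝ} (h0 : 0 ≤ p) (h1 : p ≤ 1) (x u : V d) :
    CF.off p ∅ x u = tau d p (u - x) := by
  rw [← prob_cluster_mem p h0 h1 x u]
  unfold CF.off
  congr 1
  ext ζ
  have h : cut (((∅ : Finset (V d)) : Set (V d))ᶜ) ζ = ζ := by
    funext e
    simp [cut]
  simp only [Set.mem_ofPred_eq, h]

lemma bk_two {p : ℝ} (h0 : 0 ≤ p) (h1 : p ≤ 1) (x u y : V d) :
    perc d p (disj (SCn {x} Set.univ u) (SCn {u} Set.univ y)) ≤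
      tau d p (u - x) * tau d p (y - u) := by
  refine (bk_inf p h0 h1 _ _ (SCn_inc _ _ _) (SCn_inc _ _ _) (SCn_fw _ _ _)
    (SCn_fw _ _ _)).trans ?_
  rw [perc_conn p h0 h1, perc_conn p h0 h1]

/-- A point on a simple open path. -/
lemma path_dec {ω : Cfg d} {x y u : V d} (P : (G ω).Walk x y) (hP : P.IsPath)
    (hu : u ∈ P.support) : ω ∈ disj (SCn {x} Set.univ u) (SCn {u} Set.univ y) := by
  classical
  refine ⟨fun e => decide (decA_sym e ∈ (P.takeUntil u hu).edges),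
    ⟨x, Finset.mem_singleton_self _, ?_⟩, ⟨u, Finset.mem_singleton_self _, ?_⟩⟩
  · rw [Cn_univ]
    refine decA_tr (P.takeUntil u hu) ?_
    intro e h1 h2
    simp [h1, h2]
  · have hnd : P.edges.Nodup := hP.isTrail.edges_nodup
    rw [← P.take_spec hu, SimpleGraph.Walk.edges_append, List.nodup_append] at hnd
    rw [Cn_univ]
    refine decA_tr (P.dropUntil u hu) ?_
    intro e h1 h2
    have h3 : decA_sym e ∉ (P.takeUntil u hu).edges := fun h => hnd.2.2 _ h _ h2 rfl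
    simp [h1, h3]

/-- Connection off `S`, or through a point of `S`. -/
lemma off_dec (S : Finset (V d)) (x u : V d) (ω : Cfg d) (h : u ∈ cluster ω x) :
    u ∈ cluster (cut ((S : Set (V d))ᶜ) ω) x ∨
      ∃ w ∈ S, ω ∈ disj (SCn {x} Set.univ w) (SCn {w} Set.univ u) := by
  classical
  have hr : (G ω).Reachable x u := h
  obtain ⟨P, hP⟩ := hr.exists_isPath
  by_cases hall : ∀ z ∈ P.support, z ∉ S
  · left
    have hx : x ∈ ((S : Set (V d))ᶜ) := hall x P.start_mem_support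
    exact (Cn_iff_walk hx).2 ⟨P, hall⟩
  · right
    push Not at hall
    obtain ⟨w, hw, hwS⟩ := hall
    exact ⟨w, hwS, path_dec P hP hw⟩

theorem off_ge {p : ℝ} (h0 : 0 ≤ p) (h1 : p ≤ 1) (S : Finset (V d)) (x u : V d) :
    tau d p (u - x) ≤ CF.off p S x u + ∑ w ∈ S, tau d p (w - x) * tau d p (u - w) := by
  rw [← prob_cluster_mem p h0 h1 x u]
  calc perc d p {ω | u ∈ cluster ω x}
      ≤ perc d p ({ζ | u ∈ cluster (cut ((S : Set (V d))ᶜ) ζ) x} ∪
          ⋃ w ∈ S, disj (SCn {x} Set.univ w) (SCn {w} Set.univ u)) := by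
        refine measure_mono fun ω hω => ?_
        rcases off_dec S x u ω hω with h | ⟨w, hw, h⟩
        · exact Or.inl h
        · right
          simp only [Set.mem_iUnion]
          exact ⟨w, hw, h⟩
    _ ≤ CF.off p S x u + perc d p (⋃ w ∈ S, disj (SCn {x} Set.univ w) (SCn {w} Set.univ u)) :=
        measure_union_le _ _
    _ ≤ CF.off p S x u + ∑ w ∈ S, tau d p (w - x) * tau d p (u - w) := by
        gcongr
        refine (measure_biUnion_finset_le _ _).trans ?_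
        exact Finset.sum_le_sum fun w _ => bk_two h0 h1 x w u

/-- Two points in the cluster off `S`. -/
theorem off_tree {p : ℝ} (h0 : 0 ≤ p) (h1 : p ≤ 1) (S : Finset (V d)) (x y z : V d) :
    perc d p {ζ | y ∈ cluster (cut ((S : Set (V d))ᶜ) ζ) x ∧
        z ∈ cluster (cut ((S : Set (V d))ᶜ) ζ) x} ≤
      ∑' u : V d, CF.off p S x u * (tau d p (y - u) * tau d p (z - u)) := by
  have hsub : {ζ : Cfg d | y ∈ cluster (cut ((S : Set (V d))ᶜ) ζ) x ∧
      z ∈ cluster (cut ((S : Set (V d))ᶜ) ζ) x} ⊆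
      ⋃ v : V d, disj (SCn {y} Set.univ v)
        (disj (SCn {z} Set.univ v) (SCn {v} ((S : Set (V d))ᶜ) x)) := by
    rintro ζ ⟨h2, h3⟩
    have h4 : cut ((S : Set (V d))ᶜ) ζ ∈ SCn {y} Set.univ x ∩ SCn {z} Set.univ x :=
      ⟨⟨y, Finset.mem_singleton_self _, Cn_univ.2 (SimpleGraph.Reachable.symm h2)⟩,
        ⟨z, Finset.mem_singleton_self _, Cn_univ.2 (SimpleGraph.Reachable.symm h3)⟩⟩
    obtain ⟨v, hv⟩ := Set.mem_iUnion.1 (tree_dec y z x h4)
    obtain ⟨c, h5, c2, h6, h7⟩ := hv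
    rw [Set.mem_iUnion]
    refine ⟨v, c, ?_, c2, ?_, ?_⟩
    · refine SCn_inc _ _ _ _ _ ?_ h5
      intro e he
      simp only [Bool.and_eq_true] at he ⊢
      exact ⟨(cut_true.1 he.1).1, he.2⟩
    · refine SCn_inc _ _ _ _ _ ?_ h6
      intro e he
      simp only [Bool.and_eq_true] at he ⊢
      exact ⟨⟨(cut_true.1 he.1.1).1, he.1.2⟩, he.2⟩
    · obtain ⟨v', hv', h8⟩ := h7
      refine ⟨v', hv', ?_⟩
      rw [Cn_univ] at h8
      have h9 : (fun e => (cut ((S : Set (V d))ᶜ) ζ e && !c e) && !c2 e) =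
          cut ((S : Set (V d))ᶜ) (fun e => (ζ e && !c e) && !c2 e) := by
        funext e
        simp only [cut]
        rcases ζ e <;> rcases c e <;> rcases c2 e <;> simp
      rw [h9] at h8
      exact h8
  refine (measure_mono hsub).trans ((measure_iUnion_le _).trans ?_)
  refine ENNReal.tsum_le_tsum fun v => ?_
  have h2 := bk_inf p h0 h1 (SCn {y} Set.univ v)
    (disj (SCn {z} Set.univ v) (SCn {v} ((S : Set (V d))ᶜ) x)) (SCn_inc _ _ _)
    (disj_inc (SCn_inc _ _ _) (SCn_inc _ _ _)) (SCn_fw _ _ _)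
    (disj_fw (SCn_inc _ _ _) (SCn_inc _ _ _) (SCn_fw _ _ _) (SCn_fw _ _ _))
  have h3 := bk_inf p h0 h1 (SCn {z} Set.univ v) (SCn {v} ((S : Set (V d))ᶜ) x) (SCn_inc _ _ _)
    (SCn_inc _ _ _) (SCn_fw _ _ _) (SCn_fw _ _ _)
  refine h2.trans ?_
  calc perc d p (SCn {y} Set.univ v) *
        perc d p (disj (SCn {z} Set.univ v) (SCn {v} ((S : Set (V d))ᶜ) x))
      ≤ perc d p (SCn {y} Set.univ v) *
        (perc d p (SCn {z} Set.univ v) * perc d p (SCn {v} ((S : Set (V d))ᶜ) x)) := by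
        gcongr
    _ = CF.off p S x v * (tau d p (y - v) * tau d p (z - v)) := by
        rw [perc_conn p h0 h1, perc_conn p h0 h1, ← off_eq, off_symm p S v x,
          ← neg_sub y v, tau_neg p h0 h1, ← neg_sub z v, tau_neg p h0 h1]
        ring

end H5CF
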