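import Pool.Agent.H70.CF.Defs
import Pool.Agent.H95.LBD.LawA
import Pool.Agent.H95.LBS.LawI

/-!
PROJECT CF (MP_0d9ad5_pr, note 2718), measure part. Independence of events of the two-level
environment which depend on disjoint sets of lower marks and disjoint sets of upper marks.
-/

namespace H5CF

open CF H5DF H95LBD MeasureTheory
open scoped ENNReal

variable {d : ℕ}

/-- `E` depends only on the lower marks of the edges in `F` and the upper marks of those in `K`. -/
def Dep (F K : Set (Ed d)) (E : Set (Env d)) : Prop :=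
  ∀ X X' : Env d, (∀ e ∈ F, (X e).1 = (X' e).1) → (∀ e ∈ K, (X e).2 = (X' e).2) → X ∈ E → X' ∈ E

lemma Dep.mono {F F' K K' : Set (Ed d)} {E : Set (Env d)} (h : Dep F K E) (hF : F ⊆ F')
    (hK : K ⊆ K') : Dep F' K' E :=
  fun X X' h1 h2 => h X X' (fun e he => h1 e (hF he)) (fun e he => h2 e (hK he))

lemma Dep.inter {F K : Set (Ed d)} {E E' : Set (Env d)} (h : Dep F K E) (h' : Dep F K E') :
    Dep F K (E ∩ E') :=
  fun X X' h1 h2 hX => ⟨h X X' h1 h2 hX.1, h' X X' h1 h2 hX.2⟩

lemma Dep.univ (F K : Set (Ed d)) : Dep F K (Set.univ : Set (Env d)) :=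
  fun _ _ _ _ _ => Set.mem_univ _

/-- the environment made of two configurations -/
def zp (q : Cfg d × Cfg d) : Env d := fun e => (q.1 e, q.2 e)

lemma meas_zp : Measurable (zp : Cfg d × Cfg d → Env d) :=
  measurable_pi_lambda _ fun e =>
    ((measurable_pi_apply e).comp measurable_fst).prodMk ((measurable_pi_apply e).comp measurable_snd)

theorem map_zp {p s : ℝ} (h0 : 0 ≤ p) (h1 : p ≤ 1) (hs0 : 0 ≤ s) (hs1 : s ≤ 1) :
    ((perc d p).prod (perc d s)).map zp = envM d p s := by
  have := isProb_bern h0 h1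
  have := isProb_bern hs0 hs1
  unfold envM perc
  refine Measure.eq_infinitePi _ fun s0 t ht => ?_
  have hm := meas_zp (d := d)
  have hbox : MeasurableSet ((s0 : Set (Ed d)).pi t) := .pi s0.countable_toSet fun _ _ => ht _
  rw [Measure.map_apply hm hbox, Measure.prod_apply (hm hbox)]
  have hslice : ∀ ζ : Cfg d,
      (Measure.infinitePi fun _ : Ed d => bern s) (Prod.mk ζ ⁻¹'
        (zp ⁻¹' ((s0 : Set (Ed d)).pi t))) = ∏ i ∈ s0, bern s {b | (ζ i, b) ∈ t i} := by
    intro ζ
    have : (Prod.mk ζ ⁻¹' (zp ⁻¹' ((s0 : Set (Ed d)).pi t))) =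
        (s0 : Set (Ed d)).pi (fun i => {b | (ζ i, b) ∈ t i}) := by
      ext η
      simp [zp]
    rw [this, Measure.infinitePi_pi _ (fun i _ => MeasurableSet.of_discrete)]
  simp_rw [hslice]
  have hind : ProbabilityTheory.iIndepFun
      (fun (i : Ed d) (X : Cfg d) => (fun a : Bool => bern s {b | (a, b) ∈ t i}) (X i))
      (Measure.infinitePi fun _ : Ed d => bern p) :=
    ProbabilityTheory.iIndepFun_infinitePi
      (X := fun (i : Ed d) (a : Bool) => bern s {b | (a, b) ∈ t i})
      (P := fun _ : Ed d => bern p) (fun i => measurable_of_countable _)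
  rw [ProbabilityTheory.lintegral_prod_eq_prod_lintegral_of_indepFun s0 _ hind
    (fun i => (measurable_of_countable
      (fun a : Bool => bern s {b | (a, b) ∈ t i})).comp (measurable_pi_apply i))]
  refine Finset.prod_congr rfl fun i _ => ?_
  have hmap := lintegral_map (μ := Measure.infinitePi fun _ : Ed d => bern p)
    (f := fun a : Bool => bern s {b | (a, b) ∈ t i}) (g := fun X : Cfg d => X i)
    (measurable_of_countable _) (measurable_pi_apply i)
  rw [Measure.infinitePi_map_eval (fun _ : Ed d => bern p) i] at hmap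
  rw [← hmap, Measure.prod_apply (ht i)]
  rfl

theorem indE {p s : ℝ} (h0 : 0 ≤ p) (h1 : p ≤ 1) (hs0 : 0 ≤ s) (hs1 : s ≤ 1)
    {F F' K K' : Set (Ed d)} {E E' : Set (Env d)} (hE : MeasurableSet E) (hE' : MeasurableSet E')
    (hd : Dep F K E) (hd' : Dep F' K' E') (hF : Disjoint F F') (hK : Disjoint K K') :
    envM d p s (E ∩ E') = envM d p s E * envM d p s E' := by
  have := isProb_bern h0 h1
  have := isProb_bern hs0 hs1
  rw [← map_zp h0 h1 hs0 hs1, Measure.map_apply meas_zp (hE.inter hE'),
    Measure.map_apply meas_zp hE, Measure.map_apply meas_zp hE', Set.preimage_inter]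
  unfold perc
  refine H95LBS.LawI_indep (fun _ : Ed d => bern p) (fun _ : Ed d => bern s) F K _ _
    (meas_zp hE) (meas_zp hE') ?_ ?_
  · intro q q' h2 h3 h4
    exact hd (zp q) (zp q') h2 h3 h4
  · intro q q' h2 h3 h4
    exact hd' (zp q) (zp q') (fun e he => h2 e fun hf => Set.disjoint_left.1 hF hf he)
      (fun e he => h3 e fun hf => Set.disjoint_left.1 hK hf he) h4

theorem env_lo {p s : ℝ} (h0 : 0 ≤ p) (h1 : p ≤ 1) (hs0 : 0 ≤ s) (hs1 : s ≤ 1)
    {A : Set (Cfg d)} (hA : MeasurableSet A) : envM d p s (lo ⁻¹' A) = perc d p A := by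
  rw [← map_lo h0 h1 hs0 hs1, Measure.map_apply measurable_lo hA]

lemma meas_up (e : Ed d) : MeasurableSet {X : Env d | (X e).2 = true} := by
  have h : Measurable fun X : Env d => (X e).2 := measurable_snd.comp (measurable_pi_apply e)
  exact h (MeasurableSet.singleton true)

theorem env_up {p s : ℝ} (h0 : 0 ≤ p) (h1 : p ≤ 1) (hs0 : 0 ≤ s) (hs1 : s ≤ 1) (e : Ed d) :
    envM d p s {X | (X e).2 = true} = ENNReal.ofReal s := by
  have := isProb_bern h0 h1
  have := isProb_bern hs0 hs1
  have h2 : envM d p s {X | (X e).2 = true} =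
      ((envM d p s).map fun X => X e) {b | b.2 = true} := by
    rw [Measure.map_apply (measurable_pi_apply e) MeasurableSet.of_discrete]
    rfl
  rw [h2]
  unfold envM
  rw [Measure.infinitePi_map_eval]
  have h3 : {b : Bool × Bool | b.2 = true} = Set.univ ×ˢ {true} := by
    ext b
    simp
  rw [h3, Measure.prod_prod, measure_univ, one_mul, bern_true]

end H5CF
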