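import Pool.Agent.H5.CF.OccA
import Pool.Agent.H5.CF.Pth1

/-!
JOB CF-Flw (MP_0d9ad5_pr, note 2718, flow part, owner helper5). The flow of a chain.
PROOF. Induction on `n`. `crs y s x (l ++ l') = crs y s x l + crs y s (pend x l) l'` (and similarly `pend`, `pvs`).
`crs_anti`, `crs_div`, `crs_disp`, `crs_supp`, `crs_le` are in LBD/PathA.lean. On `Occ P (n + 1) c` the cluster of
`x = (stt P n c.1).x` is `c.2.2.1`, which contains `y' = c.2.2.2.1` (`gx` from `wgt ≠ 0`), so `pth (lo X) x y'` is a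
simple open path of `lo X` inside this cluster (`pth_spec`, `pth_vs`) with end `y'`; the next position is
`y' + step s`, and the linking edge has upper mark `true`. `flw_abs`: the path gives at most 1 (`pth_nodup`), the
linking edge at most 1. `flw_meas`: `pth_meas_fun`, `measurable_lo`. `flw_gain`: `good_cell`, each step adds `2 L` to
the coordinate `i0` of the corner (`steps_i0`).
-/

namespace H5CF

open CF H5DF H95LBD MeasureTheory
open scoped ENNReal

variable {d : ℕ}

lemma flw_crs_append (y : V d) (s : Dir d) (x : V d) (l l' : List (Dir d)) :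
    crs y s x (l ++ l') = crs y s x l + crs y s (pend x l) l' := by
  induction l generalizing x with
  | nil => simp [crs, pend]
  | cons t l ih =>
    rw [List.cons_append, crs, crs, ih, pend]
    ring

lemma flw_pend_append (x : V d) (l : List (Dir d)) (t : Dir d) :
    pend x (l ++ [t]) = pend x l + step t := by
  induction l generalizing x with
  | nil => rfl
  | cons r l ih => exact ih (x + step r)

lemma flw_pvs_append {x u : V d} {l : List (Dir d)} {t : Dir d} (h : u ∈ pvs x (l ++ [t])) :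
    u ∈ pvs x l ∨ u = pend x l + step t := by
  induction l generalizing x with
  | nil =>
    have h' : u ∈ [x, x + step t] := h
    rw [List.mem_cons, List.mem_singleton] at h'
    rcases h' with h' | h'
    · left
      rw [h', pvs]
      exact List.mem_singleton_self _
    · exact Or.inr h'
  | cons r l ih =>
    have h' : u ∈ x :: pvs (x + step r) (l ++ [t]) := h
    rw [List.mem_cons] at h'
    rcases h' with h' | h'
    · left
      rw [h', pvs]
      exact List.mem_cons_self
    · rcases ih h' with h2 | h2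
      · left
        rw [pvs]
        exact List.mem_cons_of_mem _ h2
      · exact Or.inr h2

lemma flw_crs_one (y : V d) (s : Dir d) (x : V d) (t : Dir d) :
    crs y s x [t] =
      (if x = y ∧ t = s then 1 else 0) - (if x = y + step s ∧ t = opp s then 1 else 0) := by
  rw [crs, crs, add_zero]

lemma flw_crs_one_le (y : V d) (s : Dir d) (x : V d) (t : Dir d) : |crs y s x [t]| ≤ 1 := by
  rw [flw_crs_one]
  split_ifs <;> norm_num

lemma flw_crs_one_ne {y : V d} {s : Dir d} {x : V d} {t : Dir d} (h : crs y s x [t] ≠ 0) :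
    (x = y ∧ t = s) ∨ (x = y + step s ∧ t = opp s) := by
  by_contra hc
  push Not at hc
  rw [flw_crs_one, if_neg (fun h1 => hc.1 h1.1 h1.2), if_neg (fun h1 => hc.2 h1.1 h1.2)] at h
  exact h (sub_self 0)

/-- If the crossing number is not zero then the vertex is visited. -/
lemma flw_crs_mem {y : V d} {s : Dir d} {x : V d} {l : List (Dir d)} (h : crs y s x l ≠ 0) :
    y ∈ pvs x l := by
  have hp : ∀ (l : List (Dir d)) (x : V d), popen (fun _ => true) x l := by
    intro l
    induction l with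
    | nil => exact fun _ => trivial
    | cons t l ih => exact fun x => ⟨rfl, ih _⟩
  exact (crs_supp (fun _ => true) y s x l (hp l x) h).1

/-- The data of the last step. -/
lemma flw_last {P : Par d} {n : ℕ} {c : Ch d (n + 1)} {X : Env d} (hX : X ∈ Occ P (n + 1) c)
    (hw : wgt P (n + 1) c ≠ 0) :
    X ∈ Occ P n c.1 ∧ wgt P n c.1 ≠ 0 ∧
      isP (lo X) (stt P n c.1).x c.2.2.2.1 (pth (lo X) (stt P n c.1).x c.2.2.2.1) ∧
      (∀ u ∈ pvs (stt P n c.1).x (pth (lo X) (stt P n c.1).x c.2.2.2.1),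
        u ∈ occ (stt P (n + 1) c).H) ∧
      (X (edge c.2.2.2.1 c.2.2.2.2)).2 = true ∧
      (stt P n c.1).x ∈ occ (stt P (n + 1) c).H ∧
      gx P (stt P n c.1) c.2.1 c.2.2.1 c.2.2.2.1 c.2.2.2.2 := by
  classical
  have h1 : wgt P n c.1 *
    (if gx P (stt P n c.1) c.2.1 c.2.2.1 c.2.2.2.1 c.2.2.2.2 then nrm P (stt P n c.1) c.2.1
      else 0) ≠ 0 := hw
  have h2 := left_ne_zero_of_mul h1
  have h3 := right_ne_zero_of_mul h1
  have h4 : gx P (stt P n c.1) c.2.1 c.2.2.1 c.2.2.2.1 c.2.2.2.2 := by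
    by_contra hg
    rw [if_neg hg] at h3
    exact h3 rfl
  obtain ⟨hX1, hX2, hX3⟩ := hX
  have hy : c.2.2.2.1 ∈ cluster (lo X) (stt P n c.1).x := by
    rw [hX2]
    exact_mod_cast h4.2.2.1
  have hocc : ∀ u ∈ c.2.2.1, u ∈ occ (stt P (n + 1) c).H := by
    intro u hu
    have e : occ (stt P (n + 1) c).H = c.2.2.1 ∪ occ (stt P n c.1).H := rfl
    rw [e]
    exact Finset.mem_union_left _ hu
  refine ⟨hX1, h2, pth_spec hy, fun u hu => hocc u ?_, hX3, hocc _ h4.2.1, h4⟩
  have h5 := pth_vs hu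
  rw [hX2] at h5
  exact_mod_cast h5

lemma flw_anti (P : Par d) (n : ℕ) (c : Ch d n) (X : Env d) (y : V d) (s : Dir d) :
    flw P n c X (y + step s) (opp s) = - flw P n c X y s := by
  induction n with
  | zero => exact (neg_zero (G := ℝ)).symm
  | succ n ih =>
    rw [flw, flw, ih, crs_anti]
    ring

lemma flw_meas (P : Par d) (n : ℕ) (c : Ch d n) (y : V d) (s : Dir d) :
    Measurable fun X => flw P n c X y s := by
  induction n with
  | zero => exact measurable_const
  | succ n ih =>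
    exact (ih c.1).add ((pth_meas_fun (stt P n c.1).x c.2.2.2.1
      (fun l => crs y s (stt P n c.1).x (l ++ [c.2.2.2.2]))).comp measurable_lo)

lemma flw_abs (P : Par d) (n : ℕ) (c : Ch d n) (X : Env d) (y : V d) (s : Dir d) :
    |flw P n c X y s| ≤ 2 * n := by
  induction n with
  | zero =>
    have h : flw P 0 c X y s = 0 := rfl
    rw [h]
    simp
  | succ n ih =>
    rw [flw, flw_crs_append]
    have h1 := ih c.1
    have h2 := crs_le y s (stt P n c.1).x (pth (lo X) (stt P n c.1).x c.2.2.2.1)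
      (pth_nodup _ _ _)
    have h3 := flw_crs_one_le y s
      (pend (stt P n c.1).x (pth (lo X) (stt P n c.1).x c.2.2.2.1)) c.2.2.2.2
    refine (abs_add_le _ _).trans ?_
    have h4 := abs_add_le (crs y s (stt P n c.1).x (pth (lo X) (stt P n c.1).x c.2.2.2.1))
      (crs y s (pend (stt P n c.1).x (pth (lo X) (stt P n c.1).x c.2.2.2.1)) [c.2.2.2.2])
    push_cast
    linarith

lemma flw_div {P : Par d} {n : ℕ} {c : Ch d n} {X : Env d} (hX : X ∈ Occ P n c)
    (hw : wgt P n c ≠ 0) (y : V d) :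
    ∑ s : Dir d, flw P n c X y s =
      (if sta n c = y then 1 else 0) - (if (stt P n c).x = y then 1 else 0) := by
  induction n with
  | zero =>
    have h : ∀ s : Dir d, flw P 0 c X y s = 0 := fun _ => rfl
    simp only [h, Finset.sum_const_zero]
    exact (sub_self _).symm
  | succ n ih =>
    obtain ⟨h1, h2, h3, -, -, -, -⟩ := flw_last hX hw
    have e : ∀ s : Dir d, flw P (n + 1) c X y s = flw P n c.1 X y s +
        crs y s (stt P n c.1).x (pth (lo X) (stt P n c.1).x c.2.2.2.1 ++ [c.2.2.2.2]) :=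
      fun _ => rfl
    simp only [e, Finset.sum_add_distrib]
    rw [ih h1 h2, crs_div, flw_pend_append, h3.2.1]
    have e1 : sta (n + 1) c = sta n c.1 := rfl
    have e2 : (stt P (n + 1) c).x = c.2.2.2.1 + step c.2.2.2.2 := rfl
    rw [e1, e2]
    ring

lemma flw_supp {P : Par d} {n : ℕ} {c : Ch d n} {X : Env d} (hX : X ∈ Occ P n c)
    (hw : wgt P n c ≠ 0) {y : V d} {s : Dir d} (h : flw P n c X y s ≠ 0) :
    hi X (edge y s) = true := by
  induction n with
  | zero => exact absurd rfl h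
  | succ n ih =>
    obtain ⟨h1, h2, h3, -, h5, -, -⟩ := flw_last hX hw
    by_cases c1 : flw P n c.1 X y s = 0
    · rw [flw, c1, zero_add, flw_crs_append, h3.2.1] at h
      by_cases c2 : crs y s (stt P n c.1).x (pth (lo X) (stt P n c.1).x c.2.2.2.1) = 0
      · rw [c2, zero_add] at h
        rcases flw_crs_one_ne h with ⟨h6, h7⟩ | ⟨h6, h7⟩
        · rw [← h6, ← h7]
          simp [hi, h5]
        · rw [← edge_opp, ← h6, ← h7]
          simp [hi, h5]
      · have h6 := (crs_supp (lo X) y s _ _ h3.1 c2).2.2.1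
        have h7 : (X (edge y s)).1 = true := h6
        simp [hi, h7]
    · exact ih h1 h2 c1

lemma flw_occ_mono {P : Par d} {n : ℕ} {c : Ch d (n + 1)} :
    ∀ w ∈ occ (stt P n c.1).H, w ∈ occ (stt P (n + 1) c).H := by
  intro w hw
  have e : occ (stt P (n + 1) c).H = c.2.2.1 ∪ occ (stt P n c.1).H := rfl
  rw [e]
  exact Finset.mem_union_right _ hw

lemma flw_pvs_le {P : Par d} {n : ℕ} {c : Ch d (n + 1)} {X : Env d} (hX : X ∈ Occ P (n + 1) c)
    (hw : wgt P (n + 1) c ≠ 0) {N : ℕ} (hN : ∀ w ∈ occ (stt P (n + 1) c).H, nm w ≤ N)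
    (hx : nm (stt P (n + 1) c).x ≤ N) : ∀ v ∈ pvs (stt P n c.1).x
      (pth (lo X) (stt P n c.1).x c.2.2.2.1 ++ [c.2.2.2.2]), nm v ≤ N := by
  obtain ⟨-, -, h3, h4, -, -, -⟩ := flw_last hX hw
  intro v hv
  rcases flw_pvs_append hv with h5 | h5
  · exact hN v (h4 v h5)
  · rw [h5, h3.2.1]
    exact hx

lemma flw_box {P : Par d} {n : ℕ} {c : Ch d n} {X : Env d} (hX : X ∈ Occ P n c)
    (hw : wgt P n c ≠ 0) {N : ℕ} (hN : ∀ w ∈ occ (stt P n c).H, nm w ≤ N)
    (hx : nm (stt P n c).x ≤ N) {y : V d} {s : Dir d} (h : flw P n c X y s ≠ 0) : nm y ≤ N := by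
  induction n with
  | zero => exact absurd rfl h
  | succ n ih =>
    obtain ⟨h1, h2, h3, -, h5, h6, -⟩ := flw_last hX hw
    by_cases c1 : flw P n c.1 X y s = 0
    · rw [flw, c1, zero_add] at h
      exact flw_pvs_le hX hw hN hx y (flw_crs_mem h)
    · exact ih h1 h2 (fun w hw => hN w (flw_occ_mono w hw)) (hN _ h6) c1

lemma flw_disp {P : Par d} {n : ℕ} {c : Ch d n} {X : Env d} (hX : X ∈ Occ P n c)
    (hw : wgt P n c ≠ 0) {N : ℕ} (hN : ∀ w ∈ occ (stt P n c).H, nm w ≤ N)
    (hx : nm (stt P n c).x ≤ N) (i0 : Fin d) :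
    ∑ y ∈ Box d N, ∑ s : Dir d, (((step s : V d) i0 : ℤ) : ℝ) * flw P n c X y s =
      2 * (((stt P n c).x i0 : ℝ) - (sta n c i0 : ℝ)) := by
  induction n with
  | zero =>
    have h : ∀ (y : V d) (s : Dir d), flw P 0 c X y s = 0 := fun _ _ => rfl
    simp only [h, mul_zero, Finset.sum_const_zero]
    have e : (stt P 0 c).x i0 = sta 0 c i0 := rfl
    rw [e, sub_self, mul_zero]
  | succ n ih =>
    obtain ⟨h1, h2, h3, -, h5, h6, -⟩ := flw_last hX hw
    have ih' := ih h1 h2 (fun w hw => hN w (flw_occ_mono w hw)) (hN _ h6)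
    have hd := crs_disp i0 N (stt P n c.1).x
      (pth (lo X) (stt P n c.1).x c.2.2.2.1 ++ [c.2.2.2.2]) (flw_pvs_le hX hw hN hx)
    have e : ∀ (y : V d) (s : Dir d), flw P (n + 1) c X y s = flw P n c.1 X y s +
        crs y s (stt P n c.1).x (pth (lo X) (stt P n c.1).x c.2.2.2.1 ++ [c.2.2.2.2]) :=
      fun _ _ => rfl
    simp only [e, mul_add, Finset.sum_add_distrib]
    rw [ih', hd, flw_pend_append, h3.2.1]
    have e1 : sta (n + 1) c = sta n c.1 := rfl
    have e2 : (stt P (n + 1) c).x = c.2.2.2.1 + step c.2.2.2.2 := rfl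
    rw [e1, e2]
    ring

lemma flw_corner {P : Par d} {n : ℕ} {c : Ch d n} (hw : wgt P n c ≠ 0) :
    (stt P n c).z P.i0 = sta n c P.i0 + 2 * (P.L : ℤ) * n := by
  classical
  induction n with
  | zero =>
    have e : (stt P 0 c).z P.i0 = sta 0 c P.i0 := rfl
    rw [e]
    simp
  | succ n ih =>
    have h1 : wgt P n c.1 *
      (if gx P (stt P n c.1) c.2.1 c.2.2.1 c.2.2.2.1 c.2.2.2.2 then nrm P (stt P n c.1) c.2.1
        else 0) ≠ 0 := hw
    have h2 := left_ne_zero_of_mul h1
    have h3 := right_ne_zero_of_mul h1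
    have h4 : gx P (stt P n c.1) c.2.1 c.2.2.1 c.2.2.2.1 c.2.2.2.2 := by
      by_contra hg
      rw [if_neg hg] at h3
      exact h3 rfl
    have e1 : sta (n + 1) c = sta n c.1 := rfl
    have e2 : (stt P (n + 1) c).z = (stt P n c.1).z + (P.L : ℤ) • c.2.1 := rfl
    rw [e1, e2, Pi.add_apply, Pi.smul_apply, ih h2, steps_i0 h4.1, smul_eq_mul]
    push_cast
    ring

lemma flw_gain {P : Par d} (hL : 1 ≤ P.L) {n : ℕ} {c : Ch d n} (hw : wgt P n c ≠ 0) :
    2 * (P.L : ℝ) * n ≤ ((stt P n c).x P.i0 : ℝ) - (sta n c P.i0 : ℝ) := by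
  have h1 := (mem_cell.1 (good_cell hL (wgt_good hw)) P.i0).1
  rw [flw_corner hw] at h1
  have h2 : ((sta n c P.i0 + 2 * (P.L : ℤ) * n : ℤ) : ℝ) ≤ ((stt P n c).x P.i0 : ℝ) := by
    exact_mod_cast h1
  push_cast at h2
  linarith

end H5CF
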