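import Pool.Agent.H95.LBD.Basic
import Pool.Agent.H95.LBD.Walk
import Pool.Agent.H95.LBS.Dual

/-!
JOB CF-DualF (MP_0d9ad5_pr, note 2718, section 5, flow part, owner helper5). Flows with bounded divergence and
large displacement give a lower bound for `D θ`.
PROOF. Apply `H95LBS.dual_walk` with `c3 = α ^ 2 / K`. Let `g` be measurable, `|g| ≤ b`; put
`ψ_s = (step s) i0`, `I = {0 in an infinite cluster of om X}`, `W = ∑ s ∫_{I, edge open} (ψ_s + g∘shift - g)^2 dP`;
to show `α ^ 2 / K ≤ W`. Fix `M : ℕ`. Let `Q_M = {ω | ∀ y z ∈ cluster ω 0, nm (y - z) ≤ M}` (small diameter), and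
`h_M ω = min {y i0 | y ∈ cluster ω 0}` on `Q_M` (so `-M ≤ h_M ≤ 0`), `h_M = 0` otherwise; `F ω = g ω` on infinite
clusters, `F ω = h_M ω` otherwise (bounded, measurable). If `ω (edge 0 s) = true` then `0` and `step s` have the same
cluster, `cluster (shift (step s) ω) 0` is this cluster minus `step s`, so `ω ∈ Q_M` iff `shift (step s) ω ∈ Q_M`, and
`ψ_s + h_M (shift (step s) ω) - h_M ω = 0` on `Q_M`. Take `χ` for `n`. `χ s X ≠ 0` only if the edge is open. So
`∑ s ∫ (ψ_s + F (om (T_s X)) - F (om X)) χ_s = ∑ s ∫_I (ψ_s + g∘T_s - g) χ_s + ∑ s ∫_R ψ_s χ_s`, `R` = finite cluster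
and not `Q_M`; both sums are estimated by Young's inequality `u χ ≤ a/2 u^2 + 1/(2a) χ^2`.
Left side: `∑ s ∫ ψ_s χ_s - 2 ∫ F ∑ s χ_s` by the antisymmetry `≥ α n - 2 (b + M) B`. Divide by `n + 1`,
`n → ∞`, then `M → ∞` (`P(R) → 0`: decreasing events with empty intersection).
-/

namespace H5CF

open H5DF H95LBD MeasureTheory Filter Topology

variable {d : ℕ}

/-- Small diameter. -/
def DualF_Q (M : ℕ) : Set (Cfg d) :=
  {ω | ∀ y ∈ cluster ω 0, ∀ z ∈ cluster ω 0, nm (y - z) ≤ M}

lemma DualF_measQ (M : ℕ) : MeasurableSet (DualF_Q M : Set (Cfg d)) := by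
  have h : (DualF_Q M : Set (Cfg d)) = ⋂ y : V d, ⋂ z : V d,
      {ω : Cfg d | (G ω).Reachable 0 y}ᶜ ∪ ({ω : Cfg d | (G ω).Reachable 0 z}ᶜ ∪
        {_ω : Cfg d | nm (y - z) ≤ M}) := by
    ext ω
    simp only [Set.mem_iInter]
    constructor
    · intro h y z
      by_cases hy : (G ω).Reachable 0 y
      · by_cases hz : (G ω).Reachable 0 z
        · exact Or.inr (Or.inr (h y hy z hz))
        · exact Or.inr (Or.inl hz)
      · exact Or.inl hy
    · intro h y hy z hz
      rcases h y z with h1 | h1 | h1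
      · exact absurd hy h1
      · exact absurd hz h1
      · exact h1
  rw [h]
  exact MeasurableSet.iInter fun y => MeasurableSet.iInter fun z =>
    (meas_reach 0 y).compl.union ((meas_reach 0 z).compl.union (MeasurableSet.const _))

lemma DualF_cl {ω : Cfg d} {s : Dir d} (h : ω (edge 0 s) = true) :
    cluster (shift (step s) ω) 0 = {y | y + step s ∈ cluster ω 0} := by
  have hadj : (G ω).Adj 0 (step s) := ⟨s, (zero_add _).symm, h⟩
  have h1 : cluster ω (step s) = cluster ω 0 := by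
    ext y
    constructor
    · intro hy
      exact hadj.reachable.trans hy
    · intro hy
      exact hadj.reachable.symm.trans hy
  rw [cluster_shift, zero_add, h1]

lemma DualF_Qshift {ω : Cfg d} {s : Dir d} (h : ω (edge 0 s) = true) (M : ℕ) :
    shift (step s) ω ∈ DualF_Q M ↔ ω ∈ DualF_Q M := by
  unfold DualF_Q
  rw [Set.mem_ofPred_eq, Set.mem_ofPred_eq, DualF_cl h]
  constructor
  · intro h1 y hy z hz
    have h2 := h1 (y - step s) (by
      show y - step s + step s ∈ cluster ω 0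
      rwa [sub_add_cancel]) (z - step s) (by
      show z - step s + step s ∈ cluster ω 0
      rwa [sub_add_cancel])
    rwa [sub_sub_sub_cancel_right] at h2
  · intro h1 y hy z hz
    have h2 := h1 (y + step s) hy (z + step s) hz
    rwa [add_sub_add_right_eq_sub] at h2

lemma DualF_infshift {ω : Cfg d} {s : Dir d} (h : ω (edge 0 s) = true) :
    (cluster (shift (step s) ω) 0).Infinite ↔ (cluster ω 0).Infinite := by
  rw [inf_shift]
  exact inf_adj h

open Classical in
/-- The smallest coordinate of the cluster of `0` (on `DualF_Q M`). -/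
noncomputable def DualF_h (i0 : Fin d) (M : ℕ) (ω : Cfg d) : ℝ :=
  - ∑ k ∈ Finset.range M, if ∃ y ∈ cluster ω 0, y i0 ≤ -((k : ℤ) + 1) then (1 : ℝ) else 0

lemma DualF_h_abs (i0 : Fin d) (M : ℕ) (ω : Cfg d) : |DualF_h i0 M ω| ≤ M := by
  classical
  unfold DualF_h
  rw [abs_neg]
  refine (Finset.abs_sum_le_sum_abs _ _).trans ?_
  calc ∑ k ∈ Finset.range M, |if ∃ y ∈ cluster ω 0, y i0 ≤ -((k : ℤ) + 1) then (1 : ℝ) else 0|
      ≤ ∑ _k ∈ Finset.range M, (1 : ℝ) := by
        refine Finset.sum_le_sum fun k _ => ?_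
        split_ifs
        · rw [abs_one]
        · rw [abs_zero]
          exact zero_le_one
    _ = M := by simp

lemma DualF_h_meas (i0 : Fin d) (M : ℕ) : Measurable (DualF_h i0 M : Cfg d → ℝ) := by
  classical
  unfold DualF_h
  refine Measurable.neg (Finset.measurable_sum _ fun k _ => ?_)
  refine Measurable.ite ?_ measurable_const measurable_const
  have h : {ω : Cfg d | ∃ y ∈ cluster ω 0, y i0 ≤ -((k : ℤ) + 1)} =
      ⋃ y : V d, {ω : Cfg d | (G ω).Reachable 0 y} ∩ {_ω : Cfg d | y i0 ≤ -((k : ℤ) + 1)} := by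
    ext ω
    simp only [Set.mem_iUnion]
    rfl
  rw [h]
  exact MeasurableSet.iUnion fun y => (meas_reach 0 y).inter (MeasurableSet.const _)

lemma DualF_h_eq {i0 : Fin d} {M : ℕ} {ω : Cfg d} (hQ : ω ∈ DualF_Q M) {m : ℤ}
    (hm : ∃ y ∈ cluster ω 0, y i0 = m) (hmin : ∀ y ∈ cluster ω 0, m ≤ y i0) :
    DualF_h i0 M ω = m := by
  classical
  have h00 : (0 : V d) ∈ cluster ω 0 := SimpleGraph.Reachable.refl _
  have hm0 : m ≤ 0 := hmin 0 h00
  obtain ⟨y0, hy0, hy0m⟩ := hm
  have hmM : -(M : ℤ) ≤ m := by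
    have h1 := hQ y0 hy0 0 h00
    rw [sub_zero] at h1
    have h2 := natAbs_le_nm y0 i0
    omega
  obtain ⟨j, hj⟩ := Int.eq_ofNat_of_zero_le (neg_nonneg.2 hm0)
  have hjM : j ≤ M := by omega
  have hiff : ∀ k : ℕ, (∃ y ∈ cluster ω 0, y i0 ≤ -((k : ℤ) + 1)) ↔ k < j := by
    intro k
    constructor
    · rintro ⟨y, hy, hyk⟩
      have := hmin y hy
      omega
    · intro hk
      exact ⟨y0, hy0, by omega⟩
  unfold DualF_h
  simp only [hiff]
  rw [← Finset.sum_filter]
  have hf : (Finset.range M).filter (fun k => k < j) = Finset.range j := by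
    ext k
    simp only [Finset.mem_filter, Finset.mem_range]
    omega
  rw [hf]
  simp only [Finset.sum_const, Finset.card_range, nsmul_eq_mul, mul_one]
  have : (m : ℝ) = -(j : ℝ) := by
    have h1 : m = -(j : ℤ) := by omega
    rw [h1]
    push_cast
    ring
  rw [this]

lemma DualF_h_shift {i0 : Fin d} {M : ℕ} {ω : Cfg d} {s : Dir d} (h : ω (edge 0 s) = true)
    (hQ : ω ∈ DualF_Q M) :
    DualF_h i0 M (shift (step s) ω) = DualF_h i0 M ω - (((step s : V d) i0 : ℤ) : ℝ) := by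
  have h00 : (0 : V d) ∈ cluster ω 0 := SimpleGraph.Reachable.refl _
  obtain ⟨m, ⟨y0, hy0, hy0m⟩, hmin⟩ := Int.exists_least_of_bdd
    (P := fun z : ℤ => ∃ y ∈ cluster ω 0, y i0 = z)
    ⟨-(M : ℤ), by
      rintro z ⟨y, hy, rfl⟩
      have h1 := hQ y hy 0 h00
      rw [sub_zero] at h1
      have h2 := natAbs_le_nm y i0
      omega⟩ ⟨0, 0, h00, rfl⟩
  have e1 : DualF_h i0 M ω = m :=
    DualF_h_eq hQ ⟨y0, hy0, hy0m⟩ fun y hy => hmin _ ⟨y, hy, rfl⟩
  have e2 : DualF_h i0 M (shift (step s) ω) = ((m - (step s : V d) i0 : ℤ) : ℝ) := by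
    refine DualF_h_eq ((DualF_Qshift h M).2 hQ) ⟨y0 - step s, ?_, ?_⟩ ?_
    · rw [DualF_cl h]
      show y0 - step s + step s ∈ cluster ω 0
      rwa [sub_add_cancel]
    · rw [Pi.sub_apply, hy0m]
    · intro y hy
      rw [DualF_cl h] at hy
      have h1 := hmin _ ⟨y + step s, hy, rfl⟩
      rw [Pi.add_apply] at h1
      omega
  rw [e1, e2]
  push_cast
  ring

/-- Large finite clusters. -/
def DualF_R (M : ℕ) : Set (Cfg d) := {ω | (cluster ω 0).Infinite}ᶜ ∩ (DualF_Q M)ᶜ

lemma DualF_measR (M : ℕ) : MeasurableSet (DualF_R M : Set (Cfg d)) :=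
  (meas_inf 0).compl.inter (DualF_measQ M).compl

open Classical in
/-- The test function. -/
noncomputable def DualF_F (i0 : Fin d) (M : ℕ) (g : Cfg d → ℝ) (ω : Cfg d) : ℝ :=
  if (cluster ω 0).Infinite then g ω else if ω ∈ DualF_Q M then DualF_h i0 M ω else 0

lemma DualF_F_meas (i0 : Fin d) (M : ℕ) {g : Cfg d → ℝ} (hg : Measurable g) :
    Measurable (DualF_F i0 M g) := by
  classical
  unfold DualF_F
  exact Measurable.ite (meas_inf 0) hg
    (Measurable.ite (DualF_measQ M) (DualF_h_meas i0 M) measurable_const)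

lemma DualF_F_abs (i0 : Fin d) (M : ℕ) {g : Cfg d → ℝ} {b : ℝ} (hb0 : 0 ≤ b)
    (hb : ∀ ω, |g ω| ≤ b) (ω : Cfg d) : |DualF_F i0 M g ω| ≤ b + M := by
  classical
  have hM : (0 : ℝ) ≤ M := Nat.cast_nonneg _
  unfold DualF_F
  split_ifs
  · exact (hb ω).trans (by linarith)
  · exact (DualF_h_abs i0 M ω).trans (by linarith)
  · rw [abs_zero]
    linarith

open Classical in
lemma DualF_key (i0 : Fin d) (M : ℕ) (g : Cfg d → ℝ) {ω : Cfg d} {s : Dir d}
    (h : ω (edge 0 s) = true) :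
    (((step s : V d) i0 : ℤ) : ℝ) + DualF_F i0 M g (shift (step s) ω) - DualF_F i0 M g ω =
      (if (cluster ω 0).Infinite ∧ ω (edge 0 s) = true then
        (((step s : V d) i0 : ℤ) : ℝ) + g (shift (step s) ω) - g ω else 0) +
      (if ω ∈ DualF_R M then 1 else 0) * (((step s : V d) i0 : ℤ) : ℝ) := by
  unfold DualF_F
  by_cases hi : (cluster ω 0).Infinite
  · have hR : ω ∉ DualF_R M := fun h1 => h1.1 hi
    rw [if_pos ((DualF_infshift h).2 hi), if_pos hi, if_pos ⟨hi, h⟩, if_neg hR]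
    ring
  · have hi' : ¬ (cluster (shift (step s) ω) 0).Infinite := fun h1 => hi ((DualF_infshift h).1 h1)
    have hn : ¬ ((cluster ω 0).Infinite ∧ ω (edge 0 s) = true) := fun h1 => hi h1.1
    rw [if_neg hi', if_neg hi, if_neg hn]
    by_cases hQ : ω ∈ DualF_Q M
    · have hR : ω ∉ DualF_R M := fun h1 => h1.2 hQ
      rw [if_pos ((DualF_Qshift h M).2 hQ), if_pos hQ, if_neg hR, DualF_h_shift h hQ]
      ring
    · have hR : ω ∈ DualF_R M := ⟨hi, hQ⟩
      have hQ' : shift (step s) ω ∉ DualF_Q M := fun h1 => hQ ((DualF_Qshift h M).1 h1)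
      rw [if_neg hQ', if_neg hQ, if_pos hR]
      ring

lemma DualF_R_lim (P : Measure (Cfg d)) [IsFiniteMeasure P] :
    Tendsto (fun M : ℕ => P.real (DualF_R M)) atTop (𝓝 0) := by
  have hanti : Antitone (fun M : ℕ => (DualF_R M : Set (Cfg d))) := by
    intro M M' hMM ω hω
    refine ⟨hω.1, fun h => hω.2 ?_⟩
    intro y hy z hz
    exact (h y hy z hz).trans hMM
  have h1 := tendsto_measure_iInter_atTop (μ := P)
    (fun M : ℕ => (DualF_measR (d := d) M).nullMeasurableSet) hanti ⟨0, measure_ne_top _ _⟩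
  have h2 : (⋂ M : ℕ, (DualF_R M : Set (Cfg d))) = ∅ := by
    rw [Set.eq_empty_iff_forall_notMem]
    intro ω hω
    rw [Set.mem_iInter] at hω
    have hfin : (cluster ω 0).Finite := Set.not_infinite.1 (hω 0).1
    obtain ⟨M, hM⟩ := ((hfin.prod hfin).image fun p : V d × V d => nm (p.1 - p.2)).bddAbove
    refine (hω M).2 ?_
    intro y hy z hz
    exact hM ⟨(y, z), ⟨hy, hz⟩, rfl⟩
  rw [h2, measure_empty] at h1
  have h3 := (ENNReal.tendsto_toReal ENNReal.zero_ne_top).comp h1
  exact h3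

/-- the estimate for one flow -/
lemma DualF_one (i0 : Fin d) (p : ℝ)
    {Ω : Type*} [MeasurableSpace Ω] (μ : Measure Ω) [IsProbabilityMeasure μ]
    (T : V d → Ω → Ω) (hTm : ∀ a, Measurable (T a)) (hTμ : ∀ a, μ.map (T a) = μ)
    (om : Ω → Cfg d) (hom : Measurable om) (hlaw : μ.map om = perc d p)
    (hsh : ∀ a X, om (T a X) = shift a (om X))
    (g : Cfg d → ℝ) (hg : Measurable g) (b : ℝ) (hb0 : 0 ≤ b) (hb : ∀ ω, |g ω| ≤ b)
    (M : ℕ) (K α B : ℝ) (n : ℕ) (a a' : ℝ) (ha : 0 < a) (ha' : 0 < a')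
    (χ : Dir d → Ω → ℝ) (hχm : ∀ s, Measurable (χ s)) (hχb : ∃ b, ∀ s X, |χ s X| ≤ b)
    (hanti : ∀ s X, χ (opp s) (T (step s) X) = - χ s X)
    (hopen : ∀ s X, χ s X ≠ 0 → om X (edge 0 s) = true)
    (hE : ∑ s : Dir d, ∫ X, χ s X ^ 2 ∂μ ≤ K * (n + 1) ^ 2)
    (hα : α * n ≤ ∑ s : Dir d, ∫ X, (((step s : V d) i0 : ℤ) : ℝ) * χ s X ∂μ)
    (hB : ∫ X, |∑ s : Dir d, χ s X| ∂μ ≤ B) :
    α * n - 2 * (b + M) * B ≤ (n + 1) * (a / 2 *
      (∑ s : Dir d, ∫ ω in {ω : Cfg d | (cluster ω 0).Infinite ∧ ω (edge 0 s) = true},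
        ((((step s : V d) i0 : ℤ) : ℝ) + g (shift (step s) ω) - g ω) ^ 2 ∂(perc d p)) +
      K / (2 * a) + K / (2 * a') + a' * d * (perc d p).real (DualF_R M)) := by
  classical
  set ψ : Dir d → ℝ := fun s => (((step s : V d) i0 : ℤ) : ℝ) with hψ
  have hψ1 : ∀ s, |ψ s| ≤ 1 := fun s => step_abs i0 s
  obtain ⟨bχ, hbχ⟩ := hχb
  have hχ : ∀ s, BM (χ s) := fun s => ⟨hχm s, bχ, fun X => hbχ s X⟩
  set F : Cfg d → ℝ := DualF_F i0 M g with hF
  have hFm : Measurable F := DualF_F_meas i0 M hg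
  have hFb : ∀ ω, |F ω| ≤ b + M := DualF_F_abs i0 M hb0 hb
  have hFom : BM (fun X => F (om X)) := ⟨hFm.comp hom, b + M, fun X => hFb _⟩
  have hFT : ∀ s : Dir d, BM (fun X => F (om (T (step s) X))) := fun s =>
    ⟨(hFm.comp hom).comp (hTm _), b + M, fun X => hFb _⟩
  have hA : ∀ s : Dir d, MeasurableSet {ω : Cfg d | (cluster ω 0).Infinite ∧
      ω (edge 0 s) = true} := fun s => (meas_inf 0).inter (meas_open _)
  -- the two parts
  set u : Dir d → Cfg d → ℝ := fun s ω => if (cluster ω 0).Infinite ∧ ω (edge 0 s) = true then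
    ψ s + g (shift (step s) ω) - g ω else 0 with hu
  set v : Cfg d → ℝ := fun ω => if ω ∈ DualF_R M then 1 else 0 with hv
  have hum : ∀ s, Measurable (u s) := fun s => Measurable.ite (hA s)
    ((measurable_const.add (hg.comp (measurable_shift _))).sub hg) measurable_const
  have hub : ∀ s ω, |u s ω| ≤ 1 + b + b := by
    intro s ω
    simp only [hu]
    split_ifs
    · have e1 := abs_le.1 (hψ1 s)
      have e2 := abs_le.1 (hb (shift (step s) ω))
      have e3 := abs_le.1 (hb ω)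
      rw [abs_le]
      constructor <;> linarith [e1.1, e1.2, e2.1, e2.2, e3.1, e3.2]
    · rw [abs_zero]
      linarith
  have hvm : Measurable v := Measurable.ite (DualF_measR M) measurable_const measurable_const
  have hv01 : ∀ ω, v ω = 0 ∨ v ω = 1 := by
    intro ω
    simp only [hv]
    split_ifs
    · exact Or.inr rfl
    · exact Or.inl rfl
  have huom : ∀ s, BM (fun X => u s (om X)) := fun s =>
    ⟨(hum s).comp hom, 1 + b + b, fun X => hub s _⟩
  have hvom : BM (fun X => v (om X)) := by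
    refine ⟨hvm.comp hom, 1, fun X => ?_⟩
    show |v (om X)| ≤ 1
    rcases hv01 (om X) with h | h <;> rw [h] <;> simp
  -- pointwise identity
  have hpt : ∀ s X, (ψ s + F (om (T (step s) X)) - F (om X)) * χ s X =
      u s (om X) * χ s X + v (om X) * ψ s * χ s X := by
    intro s X
    by_cases h0 : χ s X = 0
    · rw [h0]; ring
    · have hk := DualF_key i0 M g (hopen s X h0)
      rw [← hsh] at hk
      rw [hF, hψ]
      simp only
      rw [hk]
      simp only [hu, hv, hψ, hsh]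
      ring
  -- integrability
  have iχ : ∀ s, Integrable (χ s) μ := fun s => (hχ s).integrable μ
  have iψχ : ∀ s, Integrable (fun X => ψ s * χ s X) μ := fun s => (iχ s).const_mul _
  have iF : ∀ s, Integrable (fun X => F (om X) * χ s X) μ := fun s =>
    (hFom.mul (hχ s)).integrable μ
  have iFT : ∀ s : Dir d, Integrable (fun X => F (om (T (step s) X)) * χ s X) μ := fun s =>
    ((hFT s).mul (hχ s)).integrable μ
  -- the reversed term
  have hrev : ∑ s : Dir d, ∫ X, F (om (T (step s) X)) * χ s X ∂μ =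
      - ∑ s : Dir d, ∫ X, F (om X) * χ s X ∂μ := by
    have h1 : ∀ s : Dir d, ∫ X, F (om (T (step s) X)) * χ s X ∂μ =
        - ∫ X, F (om X) * χ (opp s) X ∂μ := by
      intro s
      have hm : Measurable (fun X => F (om X) * χ (opp s) X) := (hFom.mul (hχ (opp s))).1
      have h2 : ∫ X, F (om X) * χ (opp s) X ∂μ =
          ∫ X, F (om (T (step s) X)) * χ (opp s) (T (step s) X) ∂μ := by
        have h3 := integral_map (μ := μ) (hTm (step s)).aemeasurable
          (f := fun X => F (om X) * χ (opp s) X) hm.aestronglyMeasurable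
        rw [hTμ] at h3
        exact h3
      rw [h2, ← integral_neg]
      refine integral_congr_ae (Eventually.of_forall fun X => ?_)
      simp only
      rw [hanti]
      ring
    simp only [h1]
    rw [Finset.sum_neg_distrib]
    congr 1
    have hinv : Function.Involutive (opp : Dir d → Dir d) := by
      intro s
      simp [opp]
    exact Equiv.sum_comp hinv.toPerm (fun s => ∫ X, F (om X) * χ s X ∂μ)
  -- the left side
  have hL : ∑ s : Dir d, ∫ X, (ψ s + F (om (T (step s) X)) - F (om X)) * χ s X ∂μ =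
      ∑ s : Dir d, ∫ X, ψ s * χ s X ∂μ - 2 * ∫ X, F (om X) * ∑ s : Dir d, χ s X ∂μ := by
    have h1 : ∀ s : Dir d, ∫ X, (ψ s + F (om (T (step s) X)) - F (om X)) * χ s X ∂μ =
        ∫ X, ψ s * χ s X ∂μ + ∫ X, F (om (T (step s) X)) * χ s X ∂μ -
          ∫ X, F (om X) * χ s X ∂μ := by
      intro s
      have iadd : Integrable (fun X => ψ s * χ s X + F (om (T (step s) X)) * χ s X) μ :=
        (iψχ s).add (iFT s)
      rw [← integral_add (iψχ s) (iFT s), ← integral_sub iadd (iF s)]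
      refine integral_congr_ae (Eventually.of_forall fun X => ?_)
      simp only
      ring
    have h2 : ∫ X, F (om X) * ∑ s : Dir d, χ s X ∂μ =
        ∑ s : Dir d, ∫ X, F (om X) * χ s X ∂μ := by
      rw [← integral_finsetSum _ fun s _ => iF s]
      refine integral_congr_ae (Eventually.of_forall fun X => ?_)
      simp only
      rw [Finset.mul_sum]
    simp only [h1]
    rw [Finset.sum_sub_distrib, Finset.sum_add_distrib, hrev, h2]
    ring
  have hS : BM (fun X => ∑ s : Dir d, χ s X) := BM.sum _ fun s _ => hχ s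
  have hFS : |∫ X, F (om X) * ∑ s : Dir d, χ s X ∂μ| ≤ (b + M) * B := by
    have hbM : 0 ≤ b + M := add_nonneg hb0 (Nat.cast_nonneg _)
    calc |∫ X, F (om X) * ∑ s : Dir d, χ s X ∂μ|
        ≤ ∫ X, |F (om X) * ∑ s : Dir d, χ s X| ∂μ := abs_integral_le_integral_abs
      _ ≤ ∫ X, (b + M) * |∑ s : Dir d, χ s X| ∂μ := by
          refine integral_mono ((hFom.mul hS).integrable μ).abs
            (((hS.integrable μ).abs).const_mul _) fun X => ?_
          simp only
          rw [abs_mul]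
          exact mul_le_mul_of_nonneg_right (hFb _) (abs_nonneg _)
      _ = (b + M) * ∫ X, |∑ s : Dir d, χ s X| ∂μ := integral_const_mul _ _
      _ ≤ (b + M) * B := mul_le_mul_of_nonneg_left hB hbM
  have hlow : α * n - 2 * (b + M) * B ≤
      ∑ s : Dir d, ∫ X, (ψ s + F (om (T (step s) X)) - F (om X)) * χ s X ∂μ := by
    rw [hL]
    have h1 := (abs_le.1 hFS).2
    have h2 : α * n ≤ ∑ s : Dir d, ∫ X, ψ s * χ s X ∂μ := hα
    linarith
  -- the right side
  have hn : (0 : ℝ) < n + 1 := by positivity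
  have hup : ∀ s : Dir d, ∫ X, (ψ s + F (om (T (step s) X)) - F (om X)) * χ s X ∂μ ≤
      a * (n + 1) / 2 * ∫ X, u s (om X) ^ 2 ∂μ + a' * (n + 1) / 2 * ∫ X, v (om X) ∂μ +
        (1 / (2 * (a * (n + 1))) + 1 / (2 * (a' * (n + 1)))) * ∫ X, χ s X ^ 2 ∂μ := by
    intro s
    have i1 : Integrable (fun X => a * (n + 1) / 2 * u s (om X) ^ 2) μ := by
      have := ((huom s).mul (huom s)).integrable μ
      simp only [← sq] at this
      exact this.const_mul _
    have i2 : Integrable (fun X => a' * (n + 1) / 2 * v (om X)) μ :=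
      (hvom.integrable μ).const_mul _
    have i3 : Integrable (fun X => (1 / (2 * (a * (n + 1))) + 1 / (2 * (a' * (n + 1)))) *
        χ s X ^ 2) μ := by
      have := ((hχ s).mul (hχ s)).integrable μ
      simp only [← sq] at this
      exact this.const_mul _
    have i12 : Integrable (fun X => a * (n + 1) / 2 * u s (om X) ^ 2 +
        a' * (n + 1) / 2 * v (om X)) μ := i1.add i2
    have i123 : Integrable (fun X => a * (n + 1) / 2 * u s (om X) ^ 2 +
        a' * (n + 1) / 2 * v (om X) + (1 / (2 * (a * (n + 1))) + 1 / (2 * (a' * (n + 1)))) *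
        χ s X ^ 2) μ := i12.add i3
    rw [← integral_const_mul, ← integral_const_mul, ← integral_const_mul,
      ← integral_add i1 i2, ← integral_add i12 i3]
    refine integral_mono ?_ i123 fun X => ?_
    · have e : (fun X => (ψ s + F (om (T (step s) X)) - F (om X)) * χ s X) =
          fun X => (ψ s * χ s X + F (om (T (step s) X)) * χ s X) - F (om X) * χ s X := by
        funext X
        ring
      rw [e]
      exact ((iψχ s).add (iFT s)).sub (iF s)
    · simp only
      rw [hpt]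
      have young : ∀ (c x y : ℝ), 0 < c → x * y ≤ c / 2 * x ^ 2 + 1 / (2 * c) * y ^ 2 := by
        intro c x y hc
        have h1 : 0 ≤ (c * x - y) ^ 2 / (2 * c) := by positivity
        have h2 : (c * x - y) ^ 2 / (2 * c) = c / 2 * x ^ 2 + 1 / (2 * c) * y ^ 2 - x * y := by
          field_simp
          ring
        linarith
      have y1 := young (a * (n + 1)) (u s (om X)) (χ s X) (by positivity)
      have y2 := young (a' * (n + 1)) (v (om X) * ψ s) (χ s X) (by positivity)
      have h3 : (v (om X) * ψ s) ^ 2 ≤ v (om X) := by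
        have hψ2 : ψ s ^ 2 ≤ 1 := by
          rw [← sq_abs]
          exact pow_le_one₀ (abs_nonneg _) (hψ1 s)
        rcases hv01 (om X) with h | h
        · rw [h]; norm_num
        · rw [h, one_mul]; exact hψ2
      have h4 : a' * (n + 1) / 2 * (v (om X) * ψ s) ^ 2 ≤ a' * (n + 1) / 2 * v (om X) :=
        mul_le_mul_of_nonneg_left h3 (by positivity)
      linarith
  have hW : ∀ s : Dir d, ∫ X, u s (om X) ^ 2 ∂μ =
      ∫ ω in {ω : Cfg d | (cluster ω 0).Infinite ∧ ω (edge 0 s) = true},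
        (ψ s + g (shift (step s) ω) - g ω) ^ 2 ∂(perc d p) := by
    intro s
    have h3 := integral_map (μ := μ) hom.aemeasurable
      (f := fun ω => u s ω ^ 2) ((hum s).pow_const 2).aestronglyMeasurable
    rw [hlaw] at h3
    rw [← h3, ← integral_indicator (hA s)]
    refine integral_congr_ae (Eventually.of_forall fun ω => ?_)
    simp only [hu]
    by_cases h : (cluster ω 0).Infinite ∧ ω (edge 0 s) = true
    · rw [if_pos h, Set.indicator_of_mem (show ω ∈ {ω : Cfg d | (cluster ω 0).Infinite ∧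
        ω (edge 0 s) = true} from h)]
    · rw [if_neg h, Set.indicator_of_notMem (show ω ∉ {ω : Cfg d | (cluster ω 0).Infinite ∧
        ω (edge 0 s) = true} from h)]
      norm_num
  have hV : ∫ X, v (om X) ∂μ = (perc d p).real (DualF_R M) := by
    have h3 := integral_map (μ := μ) hom.aemeasurable (f := v) hvm.aestronglyMeasurable
    rw [hlaw] at h3
    rw [← h3]
    have h4 : v = Set.indicator (DualF_R M) (fun _ => (1 : ℝ)) := by
      funext ω
      simp only [hv, Set.indicator]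
    rw [h4, integral_indicator (DualF_measR M)]
    simp
  refine hlow.trans ((Finset.sum_le_sum fun s _ => hup s).trans ?_)
  rw [Finset.sum_add_distrib, Finset.sum_add_distrib, ← Finset.mul_sum, ← Finset.mul_sum]
  simp only [hW, hV]
  rw [Finset.sum_const, Finset.card_univ, Fintype.card_prod, Fintype.card_fin, Fintype.card_bool,
    nsmul_eq_mul]
  set W := ∑ s : Dir d, ∫ ω in {ω : Cfg d | (cluster ω 0).Infinite ∧ ω (edge 0 s) = true},
        (ψ s + g (shift (step s) ω) - g ω) ^ 2 ∂(perc d p) with hWd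
  set PR := (perc d p).real (DualF_R M) with hPR
  have h5 : (1 / (2 * (a * (n + 1))) + 1 / (2 * (a' * (n + 1)))) *
      ∑ s : Dir d, ∫ X, χ s X ^ 2 ∂μ ≤
      (1 / (2 * (a * (n + 1))) + 1 / (2 * (a' * (n + 1)))) * (K * (n + 1) ^ 2) :=
    mul_le_mul_of_nonneg_left hE (by positivity)
  have h6 : (1 / (2 * (a * (n + 1))) + 1 / (2 * (a' * (n + 1)))) * (K * ((n : ℝ) + 1) ^ 2) =
      (n + 1) * (K / (2 * a) + K / (2 * a')) := by
    field_simp
  rw [h6] at h5
  push_cast
  rw [← Finset.mul_sum]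
  have h7 : a * (n + 1) / 2 * W + a' * (n + 1) / 2 * ((d : ℝ) * 2 * PR) +
      (n + 1) * (K / (2 * a) + K / (2 * a')) =
      (n + 1) * (a / 2 * W + K / (2 * a) + K / (2 * a') + a' * d * PR) := by
    ring
  linarith

theorem dual_flow (i0 : Fin d) (p : ℝ) (h0 : 0 ≤ p) (h1 : p ≤ 1) (D : NNReal)
    (hD : HasDiffusivity d p D)
    {Ω : Type*} [MeasurableSpace Ω] (μ : Measure Ω) [IsProbabilityMeasure μ]
    (T : V d → Ω → Ω) (hTm : ∀ a, Measurable (T a)) (hTμ : ∀ a, μ.map (T a) = μ)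
    (hT0 : ∀ X, T 0 X = X) (hTT : ∀ a b X, T a (T b X) = T (a + b) X)
    (om : Ω → Cfg d) (hom : Measurable om) (hlaw : μ.map om = perc d p)
    (hsh : ∀ a X, om (T a X) = shift a (om X))
    (K α B : ℝ) (hK : 0 < K) (hα : 0 < α)
    (hχ : ∀ n : ℕ, ∃ χ : Dir d → Ω → ℝ, (∀ s, Measurable (χ s)) ∧ (∃ b, ∀ s X, |χ s X| ≤ b) ∧
      (∀ s X, χ (opp s) (T (step s) X) = - χ s X) ∧
      (∀ s X, χ s X ≠ 0 → om X (edge 0 s) = true) ∧
      (∑ s : Dir d, ∫ X, χ s X ^ 2 ∂μ ≤ K * (n + 1) ^ 2) ∧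
      (α * n ≤ ∑ s : Dir d, ∫ X, (((step s : V d) i0 : ℤ) : ℝ) * χ s X ∂μ) ∧
      (∫ X, |∑ s : Dir d, χ s X| ∂μ ≤ B)) :
    α ^ 2 / K ≤ D * (2 * d * theta d p) := by
  have hpb := isProb_bern h0 h1
  have hpp : IsProbabilityMeasure (perc d p) := by unfold perc; infer_instance
  refine H95LBS.dual_walk i0 p h0 h1 D hD (α ^ 2 / K) ?_
  rintro g hg ⟨b0, hb0⟩
  set b : ℝ := |b0| with hbd
  have hbn : 0 ≤ b := abs_nonneg _
  have hb : ∀ ω, |g ω| ≤ b := fun ω => (hb0 ω).trans (le_abs_self _)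
  set W := ∑ s : Dir d, ∫ ω in {ω : Cfg d | (cluster ω 0).Infinite ∧ ω (edge 0 s) = true},
        ((((step s : V d) i0 : ℤ) : ℝ) + g (shift (step s) ω) - g ω) ^ 2 ∂(perc d p) with hW
  set a : ℝ := K / α with had
  have ha : 0 < a := div_pos hK hα
  -- n → ∞
  have s1 : ∀ (M : ℕ) (a' : ℝ), 0 < a' →
      α ≤ a / 2 * W + K / (2 * a) + K / (2 * a') + a' * d * (perc d p).real (DualF_R M) := by
    intro M a' ha'
    by_contra hcon
    push Not at hcon
    set Z := a / 2 * W + K / (2 * a) + K / (2 * a') + a' * d * (perc d p).real (DualF_R M) with hZ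
    have hpos : 0 < α - Z := by linarith
    obtain ⟨n, hn⟩ := exists_nat_gt ((2 * (b + M) * B + Z) / (α - Z))
    rw [div_lt_iff₀ hpos] at hn
    obtain ⟨χ, c1, c2, c3, c4, c5, c6, c7⟩ := hχ n
    have h := DualF_one i0 p μ T hTm hTμ om hom hlaw hsh g hg b hbn hb M K α B n a a' ha ha' χ
      c1 c2 c3 c4 c5 c6 c7
    rw [← hZ] at h
    nlinarith
  -- M → ∞
  have s2 : ∀ a' : ℝ, 0 < a' → α ≤ a / 2 * W + K / (2 * a) + K / (2 * a') := by
    intro a' ha'
    have hl : Tendsto (fun M : ℕ => a / 2 * W + K / (2 * a) + K / (2 * a') +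
        a' * d * (perc d p).real (DualF_R M)) atTop
        (𝓝 (a / 2 * W + K / (2 * a) + K / (2 * a') + a' * d * 0)) :=
      (((DualF_R_lim (perc d p)).const_mul _)).const_add _
    have h := ge_of_tendsto' hl fun M => s1 M a' ha'
    rwa [mul_zero, add_zero] at h
  have s3 : α ≤ a / 2 * W + K / (2 * a) := by
    refine le_of_forall_pos_le_add fun ε hε => ?_
    have h := s2 (K / (2 * ε)) (by positivity)
    have e : K / (2 * (K / (2 * ε))) = ε := by
      field_simp
    rwa [e] at h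
  have e1 : a / 2 * W + K / (2 * a) = K * W / (2 * α) + α / 2 := by
    rw [had]
    field_simp
  rw [e1] at s3
  rw [div_le_iff₀ hK]
  have s4 : α / 2 ≤ K * W / (2 * α) := by linarith
  rw [le_div_iff₀ (by positivity)] at s4
  nlinarith

end H5CF
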