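import Pool.Agent.H5.CF.OccA
import Pool.Agent.H5.CF.StepL

/-!
JOB CF-OccT (MP_0d9ad5_pr, note 2718, section 4, flow part, owner helper5). The law of a second chain `c` given
that the chain `Γ` occurs. Write `G = stt P n Γ`, `AA = occ G.H`.
PROOF of `occ_two`. Induction on `m`. `m + 1`: `c = (c', (v, B, y, s))`, `st = stt P m c'`, `x = st.x`.
Without `gx P st v B y s` or with `wgt P m c' = 0` both sides vanish (induction hypothesis). Otherwise
`E := D ∩ Occ Γ ∩ Occ c'` has `Dep (touch (occ st.H ∪ AA)) (jE G ∪ jE st)` (`Occ_dep`), and by the induction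
hypothesis it is enough that `envM (E ∩ {cluster (lo X) x = B, (X (edge y s)).2 = true}) =
envM E * kernG P G st B * epG P G y s`.
(a) the edge: if `junc G.x G.H y (y + step s)` it is open on `Occ Γ` (`Occ_junc`, `mem_jE`), `epG = 1`. Otherwise
`edge y s ∉ jE G` (`mem_jE`) and `edge y s ∉ jE st`: `jE_touch`, `y ∈ B` is not in `occ st.H`, and
`y + step s ∉ occ st.H` (the good start in `gx`: `good_notMem (good_nxt ..)`).
(b) the cluster: if `x ∈ AA` then on `E` the cluster of `x` is the `e.A` which contains `x` (`mem_occ`, `Occ_ent`,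
`cluster_eq_of_mem`), so the event is everything or nothing. If `x ∉ AA` (and `x ∉ occ st.H`: `good_notMem`) then on
`E` the set `S = occ st.H ∪ AA` is a union of clusters (`Occ_cl`), so `cluster (lo X) x = cluster (cut Sᶜ (lo X)) x`
(`cluster_off'`), and `one_step`, `one_step'`, `one_up` (StepL.lean) with `A = {ζ | cluster ζ x = B}`.
`occ_one`: `n = 0` in `occ_two`, `Γ = 0` (`kernG` = `kern0`, `epG` = `ep0` for the empty history).
`occ_two_int`: let `r X` be `X` with the lower marks outside `touch AA` and all upper marks set to `false`: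
`f X = f (r X)` on `Occ Γ`, and the two finite measures `wgt c • (envM.restrict (Occ Γ ∩ Occ c)).map r` and
`wtc c • (envM.restrict (Occ Γ)).map r` are equal by `occ_two` (`D = r ⁻¹' D'`); `lintegral_map`.
-/

namespace H5CF

open CF H5DF H95LBD MeasureTheory
open scoped ENNReal

variable {d : ℕ}

lemma OccT_touch {A B : Set (V d)} (h : A ⊆ B) : touch A ⊆ touch B := by
  rintro e (he | he)
  · exact Or.inl (h he)
  · exact Or.inr (h he)

/-- The linking edge is new or is known to be open. -/
lemma OccT_edge {P : Par d} {st : St d} (hst : good P st) {v : V d} {B : Finset (V d)} {y : V d}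
    {s : Dir d} (hg : gx P st v B y s) : edge y s ∉ jE st := by
  intro h
  have h1 := mem_jE.1 h
  obtain ⟨-, h2, -, -⟩ := junc_spec hst h1
  obtain ⟨hv, hx, hy, hd, hgc, hz, hgs⟩ := hg
  have hn : good P (nxt P st (v, B, y, s)) := good_nxt hst ⟨hv, hx, hy, hd, hgc, hz, hgs⟩
  have h3 := good_notMem hn
  rcases h2 with h2 | h2
  · exact Finset.disjoint_left.1 hd hy h2
  · exact h3 (Finset.mem_union_right _ h2)

open Classical in
/-- One step of the second chain, given the first one. -/
lemma OccT_step {P : Par d} (h0 : 0 ≤ P.p) (h1 : P.p ≤ 1) (hs0 : 0 ≤ P.s) (hs1 : P.s ≤ 1)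
    {n : ℕ} {Γ : Ch d n} (hΓ : wgt P n Γ ≠ 0) {D : Set (Env d)} (hDm : MeasurableSet D)
    (hD : Dep (touch (occ (stt P n Γ).H : Set (V d))) ∅ D) (m : ℕ) (c : Ch d m)
    (hc : wgt P m c ≠ 0) {v : V d} {B : Finset (V d)} {y : V d} {s : Dir d}
    (hg : gx P (stt P m c) v B y s) :
    envM d P.p P.s ((D ∩ Occ P n Γ ∩ Occ P m c) ∩
      {X | cluster (lo X) (stt P m c).x = (B : Set (V d)) ∧ (X (edge y s)).2 = true}) =
      envM d P.p P.s (D ∩ Occ P n Γ ∩ Occ P m c) *
        (kernG P (stt P n Γ) (stt P m c) B * epG P (stt P n Γ) y s) := by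
  set G := stt P n Γ with hG
  set st := stt P m c with hst
  set x := st.x with hx
  have hGg : good P G := wgt_good hΓ
  have hgood : good P st := wgt_good hc
  have hxst : x ∉ occ st.H := good_notMem hgood
  set E : Set (Env d) := D ∩ Occ P n Γ ∩ Occ P m c with hE
  have hEm : MeasurableSet E := (hDm.inter (meas_Occ P n Γ)).inter (meas_Occ P m c)
  set S : Finset (V d) := occ st.H ∪ occ G.H with hS
  have hSst : (occ st.H : Set (V d)) ⊆ (S : Set (V d)) := by
    rw [hS]
    exact_mod_cast Finset.subset_union_left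
  have hSG : (occ G.H : Set (V d)) ⊆ (S : Set (V d)) := by
    rw [hS]
    exact_mod_cast Finset.subset_union_right
  set K : Set (Ed d) := jE G ∪ jE st with hK
  have hEd : Dep (touch (S : Set (V d))) K E := by
    refine Dep.inter (Dep.inter ?_ ?_) ?_
    · exact hD.mono (OccT_touch hSG) (Set.empty_subset _)
    · exact (Occ_dep P n Γ).mono (OccT_touch hSG) Set.subset_union_left
    · exact (Occ_dep P m c).mono (OccT_touch hSst) Set.subset_union_right
  have hEG : E ⊆ Occ P n Γ := fun X hX => hX.1.2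
  have hEc : E ⊆ Occ P m c := fun X hX => hX.2
  have hnj : edge y s ∉ jE st := OccT_edge hgood hg
  by_cases hxG : x ∈ occ G.H
  · -- the position is in the first chain
    obtain ⟨e, he, hxe⟩ := mem_occ.1 hxG
    have hcl : ∀ X ∈ E, cluster (lo X) x = (e.A : Set (V d)) := by
      intro X hX
      have h2 := Occ_ent (hEG hX) he
      have h3 : x ∈ cluster (lo X) e.x := by
        rw [h2]
        exact_mod_cast hxe
      rw [cluster_eq_of_mem h3, h2]
    have hker : kernG P G st B = if B = e.A then 1 else 0 := by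
      unfold kernG
      rw [if_pos hxG]
      refine if_congr ?_ rfl rfl
      constructor
      · rintro ⟨e', he', hxe', hB⟩
        rw [hB, good_eq_of_mem hGg he' he hxe' hxe]
      · intro hB
        exact ⟨e, he, hxe, hB⟩
    have hev : envM d P.p P.s (E ∩ {X | (X (edge y s)).2 = true}) =
        envM d P.p P.s E * epG P G y s := by
      unfold epG
      by_cases hj : junc G.x G.H y (y + step s)
      · rw [if_pos hj, mul_one]
        congr 1
        refine Set.inter_eq_left.2 fun X hX => ?_
        exact Occ_junc (hEG hX) (mem_jE.2 hj)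
      · rw [if_neg hj]
        refine one_up h0 h1 hs0 hs1 hEm hEd ?_
        rintro (h2 | h2)
        · exact hj (mem_jE.1 h2)
        · exact hnj h2
    rw [hker]
    by_cases hB : B = e.A
    · rw [if_pos hB, one_mul, ← hev]
      congr 1
      ext X
      constructor
      · rintro ⟨hX, -, h3⟩
        exact ⟨hX, h3⟩
      · rintro ⟨hX, h3⟩
        refine ⟨hX, ?_, h3⟩
        rw [hcl X hX, hB]
    · rw [if_neg hB, zero_mul, mul_zero]
      have : E ∩ {X | cluster (lo X) x = (B : Set (V d)) ∧ (X (edge y s)).2 = true} = ∅ := by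
        ext X
        simp only [Set.mem_inter_iff, Set.mem_empty_iff_false, iff_false]
        rintro ⟨hX, h2, -⟩
        apply hB
        rw [hcl X hX] at h2
        exact_mod_cast h2.symm
      rw [this, measure_empty]
  · -- the position is off the first chain
    have hxS : x ∉ (S : Set (V d)) := by
      intro h2
      rw [hS] at h2
      rcases Finset.mem_union.1 (by exact_mod_cast h2) with h3 | h3
      · exact hxst h3
      · exact hxG h3
    have hcl : ∀ X ∈ E, cluster (cut ((S : Set (V d))ᶜ) (lo X)) x = cluster (lo X) x := by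
      intro X hX
      refine cluster_off' ?_ hxS
      intro u hu
      rcases Finset.mem_union.1 (by exact_mod_cast hu : u ∈ occ st.H ∪ occ G.H) with h3 | h3
      · exact (Occ_cl (hEc hX) hgood h3).trans hSst
      · exact (Occ_cl (hEG hX) hGg h3).trans hSG
    set A : Set (Cfg d) := {ζ | cluster ζ x = (B : Set (V d))} with hA
    have hAm : MeasurableSet A := meas_cluster_eq x _
    have hker : kernG P G st B = perc d P.p {ζ | cut ((S : Set (V d))ᶜ) ζ ∈ A} := by
      unfold kernG
      rw [if_neg hxG]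
      rfl
    rw [hker]
    have hev : E ∩ {X | cluster (lo X) x = (B : Set (V d)) ∧ (X (edge y s)).2 = true} =
        E ∩ {X | cut ((S : Set (V d))ᶜ) (lo X) ∈ A} ∩ {X | (X (edge y s)).2 = true} := by
      ext X
      constructor
      · rintro ⟨hX, h2, h3⟩
        refine ⟨⟨hX, ?_⟩, h3⟩
        show cluster (cut ((S : Set (V d))ᶜ) (lo X)) x = (B : Set (V d))
        rw [hcl X hX, h2]
      · rintro ⟨⟨hX, h2⟩, h3⟩
        refine ⟨hX, ?_, h3⟩
        have h4 : cluster (cut ((S : Set (V d))ᶜ) (lo X)) x = (B : Set (V d)) := h2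
        rw [hcl X hX] at h4
        exact h4
    rw [hev]
    unfold epG
    by_cases hj : junc G.x G.H y (y + step s)
    · rw [if_pos hj, mul_one, ← one_step h0 h1 hs0 hs1 hEm hEd hAm]
      congr 1
      refine Set.inter_eq_left.2 fun X hX => ?_
      exact Occ_junc (hEG hX.1) (mem_jE.2 hj)
    · rw [if_neg hj, ← mul_assoc]
      refine one_step' h0 h1 hs0 hs1 hEm hEd hAm ?_
      rintro (h2 | h2)
      · exact hj (mem_jE.1 h2)
      · exact hnj h2

theorem occ_two {P : Par d} (h0 : 0 ≤ P.p) (h1 : P.p ≤ 1) (hs0 : 0 ≤ P.s) (hs1 : P.s ≤ 1)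
    {n : ℕ} {Γ : Ch d n} (hΓ : wgt P n Γ ≠ 0) {D : Set (Env d)} (hDm : MeasurableSet D)
    (hD : Dep (touch (occ (stt P n Γ).H : Set (V d))) ∅ D) (m : ℕ) (c : Ch d m) :
    envM d P.p P.s (D ∩ Occ P n Γ ∩ Occ P m c) * wgt P m c =
      envM d P.p P.s (D ∩ Occ P n Γ) *
        wtc P (kernG P (stt P n Γ)) (epG P (stt P n Γ)) m c := by
  classical
  induction m with
  | zero =>
    show envM d P.p P.s (D ∩ Occ P n Γ ∩ Set.univ) * 1 = envM d P.p P.s (D ∩ Occ P n Γ) * 1
    rw [Set.inter_univ]
  | succ m ih =>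
    obtain ⟨c, v, B, y, s⟩ := c
    have ih := ih c
    have e1 : wgt P (m + 1) (c, v, B, y, s) = wgt P m c *
        (if gx P (stt P m c) v B y s then nrm P (stt P m c) v else 0) := rfl
    have e2 : wtc P (kernG P (stt P n Γ)) (epG P (stt P n Γ)) (m + 1) (c, v, B, y, s) =
        wtc P (kernG P (stt P n Γ)) (epG P (stt P n Γ)) m c *
          (if gx P (stt P m c) v B y s then kernG P (stt P n Γ) (stt P m c) B *
            epG P (stt P n Γ) y s * nrm P (stt P m c) v else 0) := rfl
    have e3 : Occ P (m + 1) (c, v, B, y, s) = Occ P m c ∩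
        {X | cluster (lo X) (stt P m c).x = (B : Set (V d)) ∧ (X (edge y s)).2 = true} := rfl
    rw [e1, e2, e3]
    by_cases hg : gx P (stt P m c) v B y s
    · rw [if_pos hg, if_pos hg]
      by_cases hc : wgt P m c = 0
      · rw [hc, mul_zero] at ih
        rw [hc, zero_mul, mul_zero, ← mul_assoc, ← ih, zero_mul]
      · rw [← Set.inter_assoc, OccT_step h0 h1 hs0 hs1 hΓ hDm hD m c hc hg]
        calc envM d P.p P.s (D ∩ Occ P n Γ ∩ Occ P m c) *
              (kernG P (stt P n Γ) (stt P m c) B * epG P (stt P n Γ) y s) *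
              (wgt P m c * nrm P (stt P m c) v)
            = (envM d P.p P.s (D ∩ Occ P n Γ ∩ Occ P m c) * wgt P m c) *
              (kernG P (stt P n Γ) (stt P m c) B * epG P (stt P n Γ) y s *
                nrm P (stt P m c) v) := by ring
          _ = _ := by
              rw [ih]
              ring
    · rw [if_neg hg, if_neg hg, mul_zero, mul_zero, mul_zero, mul_zero]

lemma OccT_kern (P : Par d) : kernG P ⟨(0 : V d), (0 : V d), []⟩ = kern0 P := by
  funext st B
  have h : st.x ∉ occ (⟨(0 : V d), (0 : V d), []⟩ : St d).H := Finset.notMem_empty _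
  unfold kernG kern0
  rw [if_neg h]
  show cl P.p (occ st.H ∪ ∅) st.x B = cl P.p (occ st.H) st.x B
  rw [Finset.union_empty]

lemma OccT_ep (P : Par d) : epG P ⟨(0 : V d), (0 : V d), []⟩ = ep0 P := by
  funext y s
  unfold epG ep0
  rw [if_neg]
  exact fun h => h

theorem occ_one {P : Par d} (h0 : 0 ≤ P.p) (h1 : P.p ≤ 1) (hs0 : 0 ≤ P.s) (hs1 : P.s ≤ 1)
    (n : ℕ) (c : Ch d n) :
    envM d P.p P.s (Occ P n c) * wgt P n c = wtc P (kern0 P) (ep0 P) n c := by
  have := isProb_env (d := d) h0 h1 hs0 hs1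
  have hΓ : wgt P 0 (0 : V d) ≠ 0 := one_ne_zero
  have h2 := occ_two h0 h1 hs0 hs1 (n := 0) (Γ := (0 : V d)) hΓ (D := Set.univ)
    MeasurableSet.univ (Dep.univ _ _) n c
  have e1 : stt P 0 (0 : V d) = ⟨(0 : V d), (0 : V d), []⟩ := rfl
  have e2 : Occ P 0 (0 : V d) = Set.univ := rfl
  rw [e1, e2, OccT_kern, OccT_ep, Set.univ_inter, Set.univ_inter, measure_univ, one_mul] at h2
  exact h2

open Classical in
/-- Forget everything but the lower marks of the edges touching `A`. -/
noncomputable def OccT_r (A : Set (V d)) (X : Env d) : Env d :=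
  fun e => (if e ∈ touch A then (X e).1 else false, false)

lemma OccT_r_meas (A : Set (V d)) : Measurable (OccT_r A : Env d → Env d) := by
  classical
  refine measurable_pi_lambda _ fun e => ?_
  unfold OccT_r
  by_cases h : e ∈ touch A
  · simp only [h, if_true]
    exact (measurable_fst.comp (measurable_pi_apply e)).prodMk measurable_const
  · simp only [h, if_false]
    exact measurable_const

lemma OccT_r_dep (A : Set (V d)) (D : Set (Env d)) : Dep (touch A) ∅ (OccT_r A ⁻¹' D) := by
  classical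
  intro X X' h _ hX
  have e : OccT_r A X' = OccT_r A X := by
    funext e
    unfold OccT_r
    by_cases he : e ∈ touch A
    · simp only [he, if_true]
      rw [h e he]
    · simp only [he, if_false]
  show OccT_r A X' ∈ D
  rw [e]
  exact hX

theorem occ_two_int {P : Par d} (h0 : 0 ≤ P.p) (h1 : P.p ≤ 1) (hs0 : 0 ≤ P.s) (hs1 : P.s ≤ 1)
    {n : ℕ} {Γ : Ch d n} (hΓ : wgt P n Γ ≠ 0) {f : Env d → ℝ≥0∞} (hf : Measurable f)
    (hdep : ∀ X X' : Env d, X ∈ Occ P n Γ →
      (∀ e ∈ touch (occ (stt P n Γ).H : Set (V d)), (X e).1 = (X' e).1) → f X = f X')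
    (m : ℕ) (c : Ch d m) :
    wgt P m c * ∫⁻ X in Occ P n Γ ∩ Occ P m c, f X ∂(envM d P.p P.s) =
      wtc P (kernG P (stt P n Γ)) (epG P (stt P n Γ)) m c *
        ∫⁻ X in Occ P n Γ, f X ∂(envM d P.p P.s) := by
  classical
  set A : Set (V d) := (occ (stt P n Γ).H : Set (V d)) with hA
  have hr := OccT_r_meas (d := d) A
  have hO : MeasurableSet (Occ P n Γ) := meas_Occ P n Γ
  have hOc : MeasurableSet (Occ P n Γ ∩ Occ P m c) := hO.inter (meas_Occ P m c)
  have hfr : ∀ X ∈ Occ P n Γ, f X = f (OccT_r A X) := by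
    intro X hX
    refine hdep X _ hX fun e he => ?_
    unfold OccT_r
    simp only [he, if_true]
  have e1 : ∫⁻ X in Occ P n Γ ∩ Occ P m c, f X ∂(envM d P.p P.s) =
      ∫⁻ Z, f Z ∂(((envM d P.p P.s).restrict (Occ P n Γ ∩ Occ P m c)).map (OccT_r A)) := by
    rw [lintegral_map hf hr]
    exact setLIntegral_congr_fun hOc fun X hX => hfr X hX.1
  have e2 : ∫⁻ X in Occ P n Γ, f X ∂(envM d P.p P.s) =
      ∫⁻ Z, f Z ∂(((envM d P.p P.s).restrict (Occ P n Γ)).map (OccT_r A)) := by
    rw [lintegral_map hf hr]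
    exact setLIntegral_congr_fun hO fun X hX => hfr X hX
  have e3 : wgt P m c • (((envM d P.p P.s).restrict (Occ P n Γ ∩ Occ P m c)).map (OccT_r A)) =
      wtc P (kernG P (stt P n Γ)) (epG P (stt P n Γ)) m c •
        (((envM d P.p P.s).restrict (Occ P n Γ)).map (OccT_r A)) := by
    refine Measure.ext fun D hDm => ?_
    rw [Measure.smul_apply, Measure.smul_apply, Measure.map_apply hr hDm,
      Measure.map_apply hr hDm, Measure.restrict_apply (hr hDm), Measure.restrict_apply (hr hDm),
      smul_eq_mul, smul_eq_mul, mul_comm, mul_comm (wtc P _ _ m c)]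
    have h2 := occ_two h0 h1 hs0 hs1 hΓ (hr hDm) (OccT_r_dep A D) m c
    rw [← Set.inter_assoc]
    exact h2
  rw [e1, e2, ← smul_eq_mul, ← smul_eq_mul, ← lintegral_smul_measure,
    ← lintegral_smul_measure, e3]

end H5CF
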