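import Pool.Agent.H5.CF.Com
import Pool.Agent.H5.CF.Sft2
import Pool.Agent.H5.CF.OccT
import Pool.Agent.H5.CF.Flw
import Pool.Agent.H95.LBD.LawA

/-!
PROJECT CF (MP_0d9ad5_pr, note 2718, section 5), flow part (helper5). The energy of the superposition of all
chain flows.
-/

namespace H5CF

open CF H5DF H95LBD MeasureTheory
open scoped ENNReal

variable {d : ℕ}

/-- The absolute flow of a chain with its weight. -/
noncomputable def uf (P : Par d) (n : ℕ) (c : Ch d n) (y : V d) (s : Dir d) (X : Env d) : ℝ≥0∞ :=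
  wgt P n c * (Occ P n c).indicator (fun X => ENNReal.ofReal |flw P n c X y s|) X

lemma uf_meas (P : Par d) (n : ℕ) (c : Ch d n) (y : V d) (s : Dir d) :
    Measurable (uf P n c y s) := by
  unfold uf
  refine Measurable.const_mul (Measurable.indicator ?_ (meas_Occ P n c)) _
  exact ENNReal.measurable_ofReal.comp (measurable_abs.comp (flw_meas P n c y s))

lemma uf_sh {P : Par d} (h0 : 0 ≤ P.p) (h1 : P.p ≤ 1) (a : V d) (n : ℕ) (c : Ch d n) (y : V d)
    (s : Dir d) (X : Env d) : uf P n (shC a n c) (y + a) s X = uf P n c y s (shE a X) := by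
  classical
  unfold uf
  rw [wgt_sh h0 h1, Set.indicator_apply, Set.indicator_apply, flw_sh]
  congr 1
  by_cases h : shE a X ∈ Occ P n c
  · rw [if_pos h, if_pos ((Occ_sh P a n c X).2 h)]
  · rw [if_neg h, if_neg fun h' => h ((Occ_sh P a n c X).1 h')]

/-- `LS` as a sum over the history. -/
lemma LS_eq (P : Par d) (φ : Finset (V d) → ℝ≥0∞) (n : ℕ) (c : Ch d n) (X : Env d) :
    LS P φ n c X = ((stt P n c).H.map fun e =>
      (((pth (lo X) e.x e.y).length : ℝ≥0∞) + 1) * φ e.A).sum := by
  induction n with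
  | zero => simp [LS, stt]
  | succ n ih =>
    simp only [LS, stt, nxt, List.map_cons, List.sum_cons]
    rw [ih c.1, add_comm]

lemma len_meas (x y : V d) :
    Measurable fun X : Env d => ((pth (lo X) x y).length : ℝ≥0∞) + 1 :=
  ((pth_meas_fun x y fun l : List (Dir d) => (l.length : ℝ≥0∞)).comp measurable_lo).add_const 1

lemma list_meas (H : List (Ent d)) (φ : Finset (V d) → ℝ≥0∞) :
    Measurable fun X : Env d => (H.map fun e =>
      (((pth (lo X) e.x e.y).length : ℝ≥0∞) + 1) * φ e.A).sum := by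
  induction H with
  | nil => simp
  | cons e H ih =>
    simp only [List.map_cons, List.sum_cons]
    exact ((len_meas e.x e.y).mul_const _).add ih

/-- Two chains, summed over the second one. -/
lemma en_list {P : Par d} (h0 : 0 ≤ P.p) (h1 : P.p ≤ 1) (hs0 : 0 ≤ P.s) (hs1 : P.s ≤ 1)
    {n : ℕ} {Γ : Ch d n} (hΓ : wgt P n Γ ≠ 0) (K3 : ℝ≥0∞)
    (hK3 : ∀ e ∈ (stt P n Γ).H, ∑' c : Ch d n,
      wtc P (kernG P (stt P n Γ)) (epG P (stt P n Γ)) n c * hit P e.A n c ≤ K3)
    (H : List (Ent d)) (hH : ∀ e ∈ H, e ∈ (stt P n Γ).H) :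
    ∑' c : Ch d n, wgt P n c * ∫⁻ X in Occ P n Γ ∩ Occ P n c, (H.map fun e =>
        (((pth (lo X) e.x e.y).length : ℝ≥0∞) + 1) * hit P e.A n c).sum ∂(envM d P.p P.s) ≤
      K3 * ∫⁻ X in Occ P n Γ, (H.map fun e =>
        (((pth (lo X) e.x e.y).length : ℝ≥0∞) + 1) * 1).sum ∂(envM d P.p P.s) := by
  induction H with
  | nil => simp
  | cons e H ih =>
    simp only [List.map_cons, List.sum_cons]
    have ih' := ih fun e' he' => hH e' (List.mem_cons_of_mem _ he')
    have h2 : ∀ c : Ch d n, wgt P n c * ∫⁻ X in Occ P n Γ ∩ Occ P n c,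
        ((((pth (lo X) e.x e.y).length : ℝ≥0∞) + 1) * hit P e.A n c + (H.map fun e =>
        (((pth (lo X) e.x e.y).length : ℝ≥0∞) + 1) * hit P e.A n c).sum) ∂(envM d P.p P.s) =
        (wtc P (kernG P (stt P n Γ)) (epG P (stt P n Γ)) n c * hit P e.A n c) *
          ∫⁻ X in Occ P n Γ, (((pth (lo X) e.x e.y).length : ℝ≥0∞) + 1) ∂(envM d P.p P.s) +
        wgt P n c * ∫⁻ X in Occ P n Γ ∩ Occ P n c, (H.map fun e =>
        (((pth (lo X) e.x e.y).length : ℝ≥0∞) + 1) * hit P e.A n c).sum ∂(envM d P.p P.s) := by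
      intro c
      rw [lintegral_add_left ((len_meas e.x e.y).mul_const _), lintegral_mul_const _
        (len_meas e.x e.y), mul_add]
      congr 1
      have h3 := occ_two_int h0 h1 hs0 hs1 hΓ (len_meas e.x e.y) (by
        intro X X' hX hXX
        have he : e ∈ (stt P n Γ).H := hH e (List.mem_cons_self ..)
        have h4 := Occ_ent hX he
        have h5 : pth (lo X) e.x e.y = pth (lo X') e.x e.y := by
          refine pth_loc (fun u hu s => ?_) _
          rw [h4] at hu
          refine hXX _ (edge_mem_touch ?_ s)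
          have h6 : u ∈ occ (stt P n Γ).H := mem_occ.2 ⟨e, he, by exact_mod_cast hu⟩
          exact_mod_cast h6
        simp only [h5]) n c
      calc wgt P n c * ((∫⁻ X in Occ P n Γ ∩ Occ P n c,
            (((pth (lo X) e.x e.y).length : ℝ≥0∞) + 1) ∂(envM d P.p P.s)) * hit P e.A n c)
          = (wgt P n c * ∫⁻ X in Occ P n Γ ∩ Occ P n c,
            (((pth (lo X) e.x e.y).length : ℝ≥0∞) + 1) ∂(envM d P.p P.s)) * hit P e.A n c := by
            ring
        _ = _ := by
            rw [h3]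
            ring
    simp_rw [h2]
    rw [ENNReal.tsum_add, ENNReal.tsum_mul_right,
      lintegral_add_left ((len_meas e.x e.y).mul_const _), mul_add]
    refine add_le_add ?_ ih'
    simp only [mul_one]
    exact mul_le_mul' (hK3 e (hH e (List.mem_cons_self ..))) le_rfl

/-- The pair energy. -/
lemma en_pair {P : Par d} {n : ℕ} (c c' : Ch d n) :
    ∑' y : V d, ∑ s : Dir d, ∫⁻ X, uf P n c y s X * uf P n c' y s X ∂(envM d P.p P.s) ≤
      wgt P n c * (wgt P n c' * ∫⁻ X in Occ P n c ∩ Occ P n c',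
        8 * LS P (fun A => hit P A n c') n c X ∂(envM d P.p P.s)) := by
  classical
  by_cases hw : wgt P n c = 0
  · simp [uf, hw]
  by_cases hw' : wgt P n c' = 0
  · simp [uf, hw']
  have h1 : ∀ (y : V d) (s : Dir d) (X : Env d), uf P n c y s X * uf P n c' y s X =
      wgt P n c * (wgt P n c' * (Occ P n c ∩ Occ P n c').indicator (fun X =>
        ENNReal.ofReal |flw P n c X y s| * ENNReal.ofReal |flw P n c' X y s|) X) := by
    intro y s X
    unfold uf
    rw [Set.indicator_apply, Set.indicator_apply, Set.indicator_apply]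
    by_cases h2 : X ∈ Occ P n c
    · by_cases h3 : X ∈ Occ P n c'
      · rw [if_pos h2, if_pos h3, if_pos ⟨h2, h3⟩]
        ring
      · rw [if_neg h3, if_neg (fun h : X ∈ Occ P n c ∩ Occ P n c' => h3 h.2)]
        simp
    · rw [if_neg h2, if_neg (fun h : X ∈ Occ P n c ∩ Occ P n c' => h2 h.1)]
      simp
  have hmf : ∀ (y : V d) (s : Dir d), Measurable fun X : Env d =>
      ENNReal.ofReal |flw P n c X y s| * ENNReal.ofReal |flw P n c' X y s| := by
    intro y s
    exact (ENNReal.measurable_ofReal.comp (measurable_abs.comp (flw_meas P n c y s))).mul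
      (ENNReal.measurable_ofReal.comp (measurable_abs.comp (flw_meas P n c' y s)))
  have hmO : MeasurableSet (Occ P n c ∩ Occ P n c') := (meas_Occ P n c).inter (meas_Occ P n c')
  have h2 : ∀ (y : V d) (s : Dir d), ∫⁻ X, uf P n c y s X * uf P n c' y s X ∂(envM d P.p P.s) =
      wgt P n c * (wgt P n c' * ∫⁻ X in Occ P n c ∩ Occ P n c',
        ENNReal.ofReal |flw P n c X y s| * ENNReal.ofReal |flw P n c' X y s|
        ∂(envM d P.p P.s)) := by
    intro y s
    simp_rw [h1]
    rw [lintegral_const_mul _ (Measurable.const_mul ((hmf y s).indicator hmO) _),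
      lintegral_const_mul _ ((hmf y s).indicator hmO), lintegral_indicator hmO]
  simp_rw [h2]
  simp_rw [← Finset.mul_sum, ENNReal.tsum_mul_left]
  gcongr
  have h3 : ∀ y : V d, ∑ s : Dir d, ∫⁻ X in Occ P n c ∩ Occ P n c',
      ENNReal.ofReal |flw P n c X y s| * ENNReal.ofReal |flw P n c' X y s| ∂(envM d P.p P.s) =
      ∫⁻ X in Occ P n c ∩ Occ P n c', ∑ s : Dir d,
        ENNReal.ofReal |flw P n c X y s| * ENNReal.ofReal |flw P n c' X y s|
        ∂(envM d P.p P.s) := by
    intro y
    rw [lintegral_finsetSum _ fun s _ => hmf y s]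
  simp_rw [h3]
  rw [← lintegral_tsum fun y => (Finset.measurable_sum _ fun s _ => hmf y s).aemeasurable]
  refine setLIntegral_mono' hmO fun X hX => ?_
  have h4 := com_edges hw hw' hX.1 hX.2
  refine le_trans (le_of_eq ?_) h4
  rw [Summable.tsum_finsetSum fun i _ => ENNReal.summable]

theorem energy {P : Par d} (h0 : 0 ≤ P.p) (h1 : P.p ≤ 1) (hs0 : 0 ≤ P.s) (hs1 : P.s ≤ 1)
    (n : ℕ) (K3 KL : ℝ≥0∞)
    (hK3 : ∀ Γ : St d, good P Γ → ∀ e ∈ Γ.H,
        ∑' c : Ch d n, wtc P (kernG P Γ) (epG P Γ) n c * hit P e.A n c ≤ K3)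
    (hKL : sumS n 0 (fun c => wgt P n c *
      ∫⁻ X in Occ P n c, LS P (fun _ => 1) n c X ∂(envM d P.p P.s)) ≤ KL) :
    ∑ s : Dir d, ∫⁻ X, (∑' c : Ch d n, uf P n c 0 s X) ^ 2 ∂(envM d P.p P.s) ≤
      8 * (K3 * KL) := by
  classical
  have hpp := isProb_env (d := d) h0 h1 hs0 hs1
  set F : Ch d n → Ch d n → V d → ℝ≥0∞ := fun c c' y =>
    ∑ s : Dir d, ∫⁻ X, uf P n c y s X * uf P n c' y s X ∂(envM d P.p P.s) with hF
  have e1 : ∑ s : Dir d, ∫⁻ X, (∑' c : Ch d n, uf P n c 0 s X) ^ 2 ∂(envM d P.p P.s) =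
      ∑' c : Ch d n, ∑' c' : Ch d n, F c c' 0 := by
    have e2 : ∀ s : Dir d, ∫⁻ X, (∑' c : Ch d n, uf P n c 0 s X) ^ 2 ∂(envM d P.p P.s) =
        ∑' c : Ch d n, ∑' c' : Ch d n,
          ∫⁻ X, uf P n c 0 s X * uf P n c' 0 s X ∂(envM d P.p P.s) := by
      intro s
      have e3 : ∀ X, (∑' c : Ch d n, uf P n c 0 s X) ^ 2 =
          ∑' c : Ch d n, ∑' c' : Ch d n, uf P n c 0 s X * uf P n c' 0 s X := by
        intro X
        rw [sq, ← ENNReal.tsum_mul_right]
        refine tsum_congr fun c => ?_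
        rw [← ENNReal.tsum_mul_left]
      simp_rw [e3]
      have hm2 : ∀ c c' : Ch d n, Measurable fun X => uf P n c 0 s X * uf P n c' 0 s X :=
        fun c c' => (uf_meas P n c 0 s).mul (uf_meas P n c' 0 s)
      have hm1 : ∀ c : Ch d n, Measurable fun X => ∑' c' : Ch d n,
          uf P n c 0 s X * uf P n c' 0 s X := fun c => Measurable.ennreal_tsum fun c' => hm2 c c'
      rw [lintegral_tsum fun c => (hm1 c).aemeasurable]
      refine tsum_congr fun c => ?_
      rw [lintegral_tsum fun c' => (hm2 c c').aemeasurable]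
    simp_rw [e2, hF]
    rw [← Summable.tsum_finsetSum fun i _ => ENNReal.summable]
    refine tsum_congr fun c => ?_
    rw [← Summable.tsum_finsetSum fun i _ => ENNReal.summable]
  rw [e1, mass_tr n F]
  · refine le_trans ?_ (mul_le_mul_right (mul_le_mul_right hKL K3) 8)
    unfold sumS
    rw [← ENNReal.tsum_mul_left, ← ENNReal.tsum_mul_left]
    refine ENNReal.tsum_le_tsum fun c => ?_
    by_cases hc : sta n c = 0
    · rw [if_pos hc, if_pos hc]
      by_cases hw : wgt P n c = 0
      · refine le_trans (le_of_eq ?_) zero_le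
        simp only [hF, uf, hw, zero_mul, lintegral_zero, Finset.sum_const_zero, tsum_zero]
      have hg := wgt_good hw
      calc ∑' c' : Ch d n, ∑' y : V d, F c c' y
          ≤ ∑' c' : Ch d n, wgt P n c * (wgt P n c' * ∫⁻ X in Occ P n c ∩ Occ P n c',
              8 * LS P (fun A => hit P A n c') n c X ∂(envM d P.p P.s)) :=
            ENNReal.tsum_le_tsum fun c' => en_pair c c'
        _ = wgt P n c * (8 * ∑' c' : Ch d n, wgt P n c' * ∫⁻ X in Occ P n c ∩ Occ P n c',
              ((stt P n c).H.map fun e => (((pth (lo X) e.x e.y).length : ℝ≥0∞) + 1) *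
                hit P e.A n c').sum ∂(envM d P.p P.s)) := by
            rw [ENNReal.tsum_mul_left]
            congr 1
            rw [← ENNReal.tsum_mul_left]
            refine tsum_congr fun c' => ?_
            have hl : ∀ X, 8 * LS P (fun A => hit P A n c') n c X = 8 * ((stt P n c).H.map fun e =>
                (((pth (lo X) e.x e.y).length : ℝ≥0∞) + 1) * hit P e.A n c').sum := by
              intro X
              rw [LS_eq]
            simp_rw [hl]
            rw [lintegral_const_mul _ (list_meas _ fun A => hit P A n c')]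
            ring
        _ ≤ wgt P n c * (8 * (K3 * ∫⁻ X in Occ P n c, ((stt P n c).H.map fun e =>
              (((pth (lo X) e.x e.y).length : ℝ≥0∞) + 1) * 1).sum ∂(envM d P.p P.s))) := by
            gcongr
            exact en_list h0 h1 hs0 hs1 hw K3 (hK3 _ hg) _ fun e he => he
        _ = 8 * (K3 * (wgt P n c * ∫⁻ X in Occ P n c, LS P (fun _ => 1) n c X
              ∂(envM d P.p P.s))) := by
            simp_rw [LS_eq]
            ring
    · rw [if_neg hc, if_neg hc]
      simp
  · intro a c c' y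
    simp only [hF]
    refine Finset.sum_congr rfl fun s _ => ?_
    simp_rw [uf_sh h0 h1]
    conv_rhs => rw [← map_shE h0 h1 hs0 hs1 a]
    have hm2 : Measurable fun X => uf P n c y s X * uf P n c' y s X :=
      (uf_meas P n c y s).mul (uf_meas P n c' y s)
    rw [lintegral_map hm2 (measurable_shE a)]

end H5CF
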