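import Pool.Agent.H5.CF.Pth1

/-!
JOB CF-Pth2 (MP_0d9ad5_pr, note 2718, flow part, owner helper5). Mean length of the canonical path.
PROOF. On `y ∈ cluster (cut Sᶜ ζ) x` let `l = pth (cut Sᶜ ζ) x y`: `l.length + 1 = (pvs x l).length` is the number of
`u ∈ pvs x l` (`pth_nodup`), so it is `∑' u, [u ∈ pvs x l]`. If `u ∈ pvs x l` then `u` is on a simple path from `x` to
`y` in `cut Sᶜ ζ`, so (list to walk: induction on `l`, `support = pvs`; `path_dec` of ClB.lean; `SCn_inc`, `disj`
is increasing as in `off_tree`) `ζ ∈ disj (SCn {x} univ u) (SCn {u} univ y)`, and `bk_two`. Then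
`∑' y, ∑' u, tau (u - x) tau (y - u) = (∑' tau)^2` (`Equiv.subRight`). Use `lintegral_tsum`, `setLIntegral`,
`lintegral_indicator`.
-/

namespace H5CF

open CF H5DF H95LBD MeasureTheory
open scoped ENNReal

variable {d : ℕ}

/-- From a list of directions to a walk. -/
lemma Pth2_walk (ω : Cfg d) (l : List (Dir d)) (x : V d) (h : popen ω x l) :
    ∃ P : (G ω).Walk x (pend x l), P.support = pvs x l := by
  induction l generalizing x with
  | nil => exact ⟨SimpleGraph.Walk.nil, rfl⟩
  | cons t l ih =>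
    obtain ⟨h1, h2⟩ := h
    obtain ⟨P, hP⟩ := ih (x + step t) h2
    have hadj : (G ω).Adj x (x + step t) := ⟨t, rfl, h1⟩
    refine ⟨(SimpleGraph.Walk.cons hadj P : (G ω).Walk x (pend (x + step t) l)), ?_⟩
    change x :: P.support = pvs x (t :: l)
    rw [hP]
    rfl

lemma Pth2_length (x : V d) (l : List (Dir d)) : (pvs x l).length = l.length + 1 := by
  induction l generalizing x with
  | nil => rfl
  | cons t l ih => simp only [pvs, List.length_cons, ih]

lemma Pth2_isP {ω : Cfg d} {x y u : V d} {l : List (Dir d)} (h : isP ω x y l)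
    (hu : u ∈ pvs x l) : ω ∈ disj (SCn {x} Set.univ u) (SCn {u} Set.univ y) := by
  obtain ⟨h1, h2, h3⟩ := h
  subst h2
  obtain ⟨P, hP⟩ := Pth2_walk ω l x h1
  refine path_dec P ?_ ?_
  · rw [SimpleGraph.Walk.isPath_def, hP]
    exact h3
  · rw [hP]
    exact hu

lemma Pth2_sub (S : Finset (V d)) (x y u : V d) :
    {ζ : Cfg d | y ∈ cluster (cut ((S : Set (V d))ᶜ) ζ) x} ∩
      {ζ : Cfg d | u ∈ pvs x (pth (cut ((S : Set (V d))ᶜ) ζ) x y)} ⊆
      disj (SCn {x} Set.univ u) (SCn {u} Set.univ y) := by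
  rintro ζ ⟨h1, h2⟩
  refine disj_inc (SCn_inc _ _ _) (SCn_inc _ _ _) _ _ ?_ (Pth2_isP (pth_spec h1) h2)
  intro e he
  exact (cut_true.1 he).1

lemma Pth2_count {l : List (V d)} (h : l.Nodup) :
    (l.length : ℝ≥0∞) = ∑' u : V d, Set.indicator {u : V d | u ∈ l} 1 u := by
  classical
  rw [tsum_eq_sum (s := l.toFinset)]
  · have h1 : ∀ u ∈ l.toFinset, Set.indicator {u : V d | u ∈ l} (1 : V d → ℝ≥0∞) u = 1 := by
      intro u hu
      rw [Set.indicator_of_mem]
      · rfl
      · exact List.mem_toFinset.1 hu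
    rw [Finset.sum_congr rfl h1, Finset.sum_const, nsmul_eq_mul, mul_one,
      List.toFinset_card_of_nodup h]
  · intro u hu
    rw [Set.indicator_of_notMem]
    intro h2
    exact hu (List.mem_toFinset.2 h2)

theorem pth_len {p : ℝ} (h0 : 0 ≤ p) (h1 : p ≤ 1) (S : Finset (V d)) (x : V d) :
    ∑' y : V d, ∫⁻ ζ in {ζ : Cfg d | y ∈ cluster (cut ((S : Set (V d))ᶜ) ζ) x},
        (((pth (cut ((S : Set (V d))ᶜ) ζ) x y).length : ℝ≥0∞) + 1) ∂(perc d p) ≤
      (∑' u : V d, tau d p u) ^ 2 := by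
  classical
  have key : ∀ y : V d, ∫⁻ ζ in {ζ : Cfg d | y ∈ cluster (cut ((S : Set (V d))ᶜ) ζ) x},
        (((pth (cut ((S : Set (V d))ᶜ) ζ) x y).length : ℝ≥0∞) + 1) ∂(perc d p) ≤
      ∑' u : V d, tau d p (u - x) * tau d p (y - u) := by
    intro y
    have hm : ∀ u : V d,
        MeasurableSet {ζ : Cfg d | u ∈ pvs x (pth (cut ((S : Set (V d))ᶜ) ζ) x y)} := by
      intro u
      have h2 : Measurable fun ζ : Cfg d => decide (u ∈ pvs x (pth ζ x y)) :=
        pth_meas_fun x y fun l => decide (u ∈ pvs x l)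
      have h3 := (h2.comp (measurable_cut ((S : Set (V d))ᶜ))) (measurableSet_singleton true)
      refine (Eq.subst (motive := MeasurableSet) ?_ h3)
      ext ζ
      simp
    have e1 : ∀ ζ : Cfg d, (((pth (cut ((S : Set (V d))ᶜ) ζ) x y).length : ℝ≥0∞) + 1) =
        ∑' u : V d, Set.indicator
          {ζ : Cfg d | u ∈ pvs x (pth (cut ((S : Set (V d))ᶜ) ζ) x y)} 1 ζ := by
      intro ζ
      have h2 := Pth2_count (pth_nodup (cut ((S : Set (V d))ᶜ) ζ) x y)
      rw [Pth2_length] at h2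
      push_cast at h2
      rw [h2]
      refine tsum_congr fun u => ?_
      simp only [Set.indicator, Set.mem_ofPred_eq, Pi.one_apply]
    simp_rw [e1]
    rw [lintegral_tsum]
    · refine ENNReal.tsum_le_tsum fun u => ?_
      rw [lintegral_indicator_one (hm u), Measure.restrict_apply (hm u), Set.inter_comm]
      exact (measure_mono (Pth2_sub S x y u)).trans (bk_two h0 h1 x u y)
    · intro u
      exact (measurable_one.indicator (hm u)).aemeasurable
  refine (ENNReal.tsum_le_tsum key).trans ?_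
  rw [ENNReal.tsum_comm]
  have h2 : ∀ u : V d, ∑' y : V d, tau d p (u - x) * tau d p (y - u) =
      tau d p (u - x) * ∑' y : V d, tau d p y := by
    intro u
    rw [ENNReal.tsum_mul_left]
    congr 1
    exact (Equiv.subRight u).tsum_eq (fun y => tau d p y)
  simp_rw [h2]
  have h3 : ∑' u : V d, tau d p (u - x) = ∑' u : V d, tau d p u :=
    (Equiv.subRight x).tsum_eq (fun y => tau d p y)
  rw [ENNReal.tsum_mul_right, h3, sq]

end H5CF
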