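import Pool.Agent.H5.CF.Nrm
import Pool.Agent.H5.CF.OccT
import Pool.Agent.H5.CF.Pth2

/-!
JOB CF-Len (MP_0d9ad5_pr, note 2718, end of (B3), flow part, owner helper5). Mean total length of a chain.
PROOF. Induction on `n` with `sum_succ`. `c = (c', q)`, `q = (v, B, y, s)`, `st = stt P n c'`, `x = st.x`,
`E = Occ c'`; only `gx P st v B y s`, `wgt c' ≠ 0` matter. `Occ c = E ∩ {cluster (lo X) x = B} ∩ {(X (edge y s)).2}`;
on `E` (`Occ_cl`, `good_notMem`, `cluster_off'`) `cluster (lo X) x = cluster (cut Sᶜ (lo X)) x`, `S = occ st.H`, and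
`pth (lo X) x y = pth (cut Sᶜ (lo X)) x y` (`pth_loc`: the two configurations agree at the points of the cluster).
First part: `∫_{Occ c} LS c' = (∫_{E} LS c') * cl p S x B * s` (`LS c'` is a function of the lower marks of `touch S`:
apply `one_step'` to the events `E ∩ {LS c' ∈ ..}`, i.e. the measures `(envM.restrict E).map` and
`lintegral_map`, or approximate by `∑' k`), and `∑' q, nrm * cl * s * [gx] = 1` (`kk_sum`): gives the sum for `n`.
Second part: `∫_{Occ c} (len + 1) = envM E * s * ∫_{cluster (cut Sᶜ ζ) x = B} (len (pth (cut Sᶜ ζ) x y) + 1)`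
(`one_step'` for the sets `A = {ζ | cluster ζ x = B, len = k}`, sum over `k`). Sum over `B ∋ y` and `y`:
`∑_v ∑_s M0 * s * ∑' y ∑'_{B ∋ y} ∫_{cluster = B} ≤ card * 2 d * M0 * s * ∑' y ∫_{y ∈ cluster}` and `pth_len`;
`sumS n x (wgt * envM (Occ ..)) = 1` (`occ_one`, `wtc_sum`).
-/

namespace H5CF

open CF H5DF H95LBD MeasureTheory
open scoped ENNReal

variable {d : ℕ}

/-- `LS` is measurable -/
lemma LS_meas (P : Par d) (φ : Finset (V d) → ℝ≥0∞) (n : ℕ) (c : Ch d n) :
    Measurable (LS P φ n c) := by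
  induction n with
  | zero => exact measurable_const
  | succ n ih =>
    have h : Measurable fun X : Env d =>
        ((((pth (lo X) (stt P n c.1).x c.2.2.2.1).length : ℝ≥0∞) + 1) * φ c.2.2.1) :=
      (pth_meas_fun (stt P n c.1).x c.2.2.2.1
        (fun l : List (Dir d) => ((l.length : ℝ≥0∞) + 1) * φ c.2.2.1)).comp measurable_lo
    exact (ih c.1).add h

/-- on `Occ`, `LS` only depends on the lower marks of the edges touching the clusters -/
lemma LS_dep {P : Par d} (φ : Finset (V d) → ℝ≥0∞) {n : ℕ} {c : Ch d n} {X X' : Env d}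
    (hX : X ∈ Occ P n c)
    (h : ∀ e ∈ touch (occ (stt P n c).H : Set (V d)), (X e).1 = (X' e).1) :
    LS P φ n c X = LS P φ n c X' := by
  induction n with
  | zero => rfl
  | succ n ih =>
    obtain ⟨c', v, B, y, s⟩ := c
    obtain ⟨hX1, hX2, -⟩ := hX
    dsimp only at hX1 hX2
    have hocc : occ (stt P (n + 1) ((c', v, B, y, s) : Ch d n × Stp d)).H = B ∪ occ (stt P n c').H :=
      rfl
    rw [hocc] at h
    have h1 : LS P φ n c' X = LS P φ n c' X' := by
      refine ih hX1 fun e he => h e ?_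
      rcases he with he | he
      · exact Or.inl (by rw [Finset.coe_union]; exact Or.inr he)
      · exact Or.inr (by rw [Finset.coe_union]; exact Or.inr he)
    have h2 : pth (lo X) (stt P n c').x y = pth (lo X') (stt P n c').x y := by
      refine pth_loc (fun u hu t => ?_) y
      have hu2 : u ∈ (B : Set (V d)) := by
        rw [← hX2]
        exact hu
      exact h _ (edge_mem_touch (by rw [Finset.coe_union]; exact Or.inl hu2) t)
    show LS P φ n c' X + _ = LS P φ n c' X' + _
    dsimp only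
    rw [h1, h2]

lemma Len_touch {S : Set (V d)} {y : V d} {s : Dir d} (h : edge y s ∈ touch S) :
    y ∈ S ∨ y + step s ∈ S := by
  by_contra hc
  rw [not_or] at hc
  have h2 : edge y s ∈ ins Sᶜ := edge_mem_ins.2 hc
  rcases h with h | h
  · exact h2.1 h
  · exact h2.2 h

/-- the path off a union of clusters -/
lemma Len_cut {ζ : Cfg d} {S : Set (V d)} {x : V d} (hS : ∀ u ∈ S, cluster ζ u ⊆ S) (hx : x ∉ S)
    (y : V d) : pth (cut Sᶜ ζ) x y = pth ζ x y := by
  symm
  refine pth_loc (fun u hu t => ?_) y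
  have huS : ∀ w, w ∈ cluster ζ x → w ∉ S := fun w hw hwS =>
    hx (hS w hwS (SimpleGraph.Reachable.symm hw))
  apply Bool.eq_iff_iff.2
  rw [cut_edge]
  constructor
  · intro h
    exact ⟨h, huS u hu, huS _ (cluster_step hu h)⟩
  · exact fun h => h.1

/-- integral of a function of the explored part -/
lemma Len_fst {p s : ℝ} (h0 : 0 ≤ p) (h1 : p ≤ 1) (hs0 : 0 ≤ s) (hs1 : s ≤ 1)
    {E : Set (Env d)} (hEm : MeasurableSet E) {S : Set (V d)} {K : Set (Ed d)}
    (hE : Dep (touch S) K E) {A : Set (Cfg d)} (hA : MeasurableSet A) {b : Ed d} (hb : b ∉ K)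
    {f : Env d → ℝ≥0∞} (hf : Measurable f)
    (hdep : ∀ X X' : Env d, X ∈ E → (∀ e ∈ touch S, (X e).1 = (X' e).1) → f X = f X') :
    ∫⁻ X in E ∩ {X | cut Sᶜ (lo X) ∈ A} ∩ {X | (X b).2 = true}, f X ∂(envM d p s) =
      (∫⁻ X in E, f X ∂(envM d p s)) * (perc d p {ζ | cut Sᶜ ζ ∈ A} * ENNReal.ofReal s) := by
  have hA' : MeasurableSet {X : Env d | cut Sᶜ (lo X) ∈ A} :=
    measurable_lo (measurable_cut Sᶜ hA)
  have hm : MeasurableSet (E ∩ {X | cut Sᶜ (lo X) ∈ A} ∩ {X | (X b).2 = true}) :=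
    (hEm.inter hA').inter (meas_up b)
  have key : ((envM d p s).restrict (E ∩ {X | cut Sᶜ (lo X) ∈ A} ∩ {X | (X b).2 = true})).map f =
      (perc d p {ζ | cut Sᶜ ζ ∈ A} * ENNReal.ofReal s) • ((envM d p s).restrict E).map f := by
    refine Measure.ext fun T hT => ?_
    rw [Measure.map_apply hf hT, Measure.restrict_apply (hf hT), Measure.smul_apply,
      Measure.map_apply hf hT, Measure.restrict_apply (hf hT), smul_eq_mul]
    have hd2 : Dep (touch S) K (E ∩ f ⁻¹' T) := by
      intro X X' h2 h3 hX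
      refine ⟨hE X X' h2 h3 hX.1, ?_⟩
      show f X' ∈ T
      rw [← hdep X X' hX.1 h2]
      exact hX.2
    have h4 := one_step' h0 h1 hs0 hs1 (hEm.inter (hf hT)) hd2 hA hb
    have h5 : f ⁻¹' T ∩ (E ∩ {X | cut Sᶜ (lo X) ∈ A} ∩ {X | (X b).2 = true}) =
        E ∩ f ⁻¹' T ∩ {X | cut Sᶜ (lo X) ∈ A} ∩ {X | (X b).2 = true} := by
      ext X
      simp only [Set.mem_inter_iff]
      tauto
    rw [h5, h4, Set.inter_comm (f ⁻¹' T) E]
    ring
  have e1 := lintegral_map (μ := (envM d p s).restrict (E ∩ {X | cut Sᶜ (lo X) ∈ A} ∩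
    {X | (X b).2 = true})) (f := fun a : ℝ≥0∞ => a) (g := f) measurable_id hf
  have e2 := lintegral_map (μ := (envM d p s).restrict E) (f := fun a : ℝ≥0∞ => a) (g := f)
    measurable_id hf
  rw [← e1, key, lintegral_smul_measure, e2, smul_eq_mul, mul_comm]

/-- integral of a function of the new part -/
lemma Len_snd {p s : ℝ} (h0 : 0 ≤ p) (h1 : p ≤ 1) (hs0 : 0 ≤ s) (hs1 : s ≤ 1)
    {E : Set (Env d)} (hEm : MeasurableSet E) {S : Set (V d)} {K : Set (Ed d)}
    (hE : Dep (touch S) K E) {A : Set (Cfg d)} (hA : MeasurableSet A) {b : Ed d} (hb : b ∉ K)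
    {g : Cfg d → ℝ≥0∞} (hg : Measurable g) :
    ∫⁻ X in E ∩ {X | cut Sᶜ (lo X) ∈ A} ∩ {X | (X b).2 = true}, g (cut Sᶜ (lo X)) ∂(envM d p s) =
      envM d p s E * ENNReal.ofReal s *
        ∫⁻ ζ in {ζ | cut Sᶜ ζ ∈ A}, g (cut Sᶜ ζ) ∂(perc d p) := by
  have hA' : MeasurableSet {X : Env d | cut Sᶜ (lo X) ∈ A} :=
    measurable_lo (measurable_cut Sᶜ hA)
  have hc : Measurable fun X : Env d => cut Sᶜ (lo X) := (measurable_cut Sᶜ).comp measurable_lo
  have key : ((envM d p s).restrict (E ∩ {X | cut Sᶜ (lo X) ∈ A} ∩ {X | (X b).2 = true})).map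
      (fun X : Env d => cut Sᶜ (lo X)) =
      (envM d p s E * ENNReal.ofReal s) • ((perc d p).restrict {ζ | cut Sᶜ ζ ∈ A}).map
        (cut Sᶜ) := by
    refine Measure.ext fun T hT => ?_
    rw [Measure.map_apply hc hT, Measure.restrict_apply (hc hT), Measure.smul_apply,
      Measure.map_apply (measurable_cut _) hT, Measure.restrict_apply (measurable_cut _ hT),
      smul_eq_mul]
    have h4 := one_step' h0 h1 hs0 hs1 hEm hE (hT.inter hA) hb
    have h5 : (fun X : Env d => cut Sᶜ (lo X)) ⁻¹' T ∩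
        (E ∩ {X | cut Sᶜ (lo X) ∈ A} ∩ {X | (X b).2 = true}) =
        E ∩ {X | cut Sᶜ (lo X) ∈ T ∩ A} ∩ {X | (X b).2 = true} := by
      ext X
      simp only [Set.mem_inter_iff, Set.mem_preimage, Set.mem_ofPred_eq]
      tauto
    rw [h5, h4]
    have h6 : cut Sᶜ ⁻¹' T ∩ {ζ : Cfg d | cut Sᶜ ζ ∈ A} = {ζ | cut Sᶜ ζ ∈ T ∩ A} := rfl
    rw [h6]
    ring
  have e1 := lintegral_map (μ := (envM d p s).restrict (E ∩ {X | cut Sᶜ (lo X) ∈ A} ∩
    {X | (X b).2 = true})) (f := g) (g := fun X : Env d => cut Sᶜ (lo X)) hg hc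
  have e2 := lintegral_map (μ := (perc d p).restrict {ζ | cut Sᶜ ζ ∈ A}) (f := g) (g := cut Sᶜ)
    hg (measurable_cut _)
  rw [← e1, key, lintegral_smul_measure, e2, smul_eq_mul]

/-- the event of the next step -/
lemma Len_ev {P : Par d} {n : ℕ} {c : Ch d n} (hg : good P (stt P n c)) (B : Finset (V d))
    (b : Ed d) :
    Occ P n c ∩ {X | cluster (lo X) (stt P n c).x = (B : Set (V d)) ∧ (X b).2 = true} =
      Occ P n c ∩ {X | cut ((occ (stt P n c).H : Set (V d))ᶜ) (lo X) ∈
        {ζ : Cfg d | cluster ζ (stt P n c).x = (B : Set (V d))}} ∩ {X | (X b).2 = true} := by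
  ext X
  simp only [Set.mem_inter_iff, Set.mem_ofPred_eq]
  have key : X ∈ Occ P n c → cluster (cut ((occ (stt P n c).H : Set (V d))ᶜ) (lo X))
      (stt P n c).x = cluster (lo X) (stt P n c).x := by
    intro hX
    refine cluster_off' ?_ ?_
    · intro u hu
      exact Occ_cl hX hg (by exact_mod_cast hu)
    · intro h
      exact good_notMem hg (by exact_mod_cast h)
  constructor
  · rintro ⟨h1, h2, h3⟩
    exact ⟨⟨h1, by rw [key h1]; exact h2⟩, h3⟩
  · rintro ⟨⟨h1, h2⟩, h3⟩
    exact ⟨h1, by rw [← key h1]; exact h2, h3⟩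

/-- the new linking edge is not one of the old ones -/
lemma Len_jE {P : Par d} {n : ℕ} {c : Ch d n} (hg : good P (stt P n c)) {v : V d}
    {B : Finset (V d)} {y : V d} {s : Dir d} (hx : gx P (stt P n c) v B y s) :
    edge y s ∉ jE (stt P n c) := by
  intro h
  have h1 := Len_touch (jE_touch hg h)
  rcases h1 with h1 | h1
  · exact Finset.disjoint_left.1 hx.2.2.2.1 hx.2.2.1 (by exact_mod_cast h1)
  · have h2 := good_notMem (good_nxt hg (q := (v, B, y, s)) hx)
    apply h2
    show y + step s ∈ B ∪ occ (stt P n c).H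
    rw [Finset.mem_union]
    exact Or.inr (by exact_mod_cast h1)

/-- one step: the old part -/
lemma Len_old {P : Par d} (h0 : 0 ≤ P.p) (h1 : P.p ≤ 1) (hs0 : 0 ≤ P.s) (hs1 : P.s ≤ 1)
    {n : ℕ} {c : Ch d n} (hw : wgt P n c ≠ 0) (φ : Finset (V d) → ℝ≥0∞) (q : Stp d) :
    wgt P (n + 1) ((c, q) : Ch d n × Stp d) *
        ∫⁻ X in Occ P (n + 1) ((c, q) : Ch d n × Stp d), LS P φ n c X ∂(envM d P.p P.s) =
      kk P (kern0 P) (ep0 P) (stt P n c) q *
        (wgt P n c * ∫⁻ X in Occ P n c, LS P φ n c X ∂(envM d P.p P.s)) := by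
  classical
  obtain ⟨v, B, y, s⟩ := q
  have hg := wgt_good hw
  have e1 : wgt P (n + 1) ((c, v, B, y, s) : Ch d n × Stp d) = wgt P n c *
      (if gx P (stt P n c) v B y s then nrm P (stt P n c) v else 0) := rfl
  have e2 : Occ P (n + 1) ((c, v, B, y, s) : Ch d n × Stp d) = Occ P n c ∩
      {X | cluster (lo X) (stt P n c).x = (B : Set (V d)) ∧ (X (edge y s)).2 = true} := rfl
  rw [e1, e2, Len_ev hg]
  unfold kk
  dsimp only
  by_cases hx : gx P (stt P n c) v B y s
  · rw [if_pos hx, if_pos hx, Len_fst h0 h1 hs0 hs1 (meas_Occ P n c) (Occ_dep P n c)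
      (meas_cluster_eq (stt P n c).x (B : Set (V d))) (Len_jE hg hx) (LS_meas P φ n c)
      (fun X X' hX h => LS_dep φ hX h)]
    have e3 : perc d P.p {ζ | cut ((occ (stt P n c).H : Set (V d))ᶜ) ζ ∈
        {ζ : Cfg d | cluster ζ (stt P n c).x = (B : Set (V d))}} = kern0 P (stt P n c) B := rfl
    rw [e3]
    unfold ep0
    ring
  · rw [if_neg hx, if_neg hx]
    ring

/-- one step: the new part -/
lemma Len_new {P : Par d} (h0 : 0 ≤ P.p) (h1 : P.p ≤ 1) (hs0 : 0 ≤ P.s) (hs1 : P.s ≤ 1)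
    {n : ℕ} {c : Ch d n} (hw : wgt P n c ≠ 0) (q : Stp d) :
    wgt P (n + 1) ((c, q) : Ch d n × Stp d) *
        ∫⁻ X in Occ P (n + 1) ((c, q) : Ch d n × Stp d),
          (((pth (lo X) (stt P n c).x q.2.2.1).length : ℝ≥0∞) + 1) ∂(envM d P.p P.s) =
      wgt P n c * envM d P.p P.s (Occ P n c) * (ENNReal.ofReal P.s *
        ((open Classical in if gx P (stt P n c) q.1 q.2.1 q.2.2.1 q.2.2.2 then
            nrm P (stt P n c) q.1 else 0) *
        ∫⁻ ζ in {ζ : Cfg d | cluster (cut ((occ (stt P n c).H : Set (V d))ᶜ) ζ) (stt P n c).x =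
            (q.2.1 : Set (V d))},
          (((pth (cut ((occ (stt P n c).H : Set (V d))ᶜ) ζ) (stt P n c).x
            q.2.2.1).length : ℝ≥0∞) + 1) ∂(perc d P.p))) := by
  classical
  obtain ⟨v, B, y, s⟩ := q
  have hg := wgt_good hw
  have e1 : wgt P (n + 1) ((c, v, B, y, s) : Ch d n × Stp d) = wgt P n c *
      (if gx P (stt P n c) v B y s then nrm P (stt P n c) v else 0) := rfl
  have e2 : Occ P (n + 1) ((c, v, B, y, s) : Ch d n × Stp d) = Occ P n c ∩
      {X | cluster (lo X) (stt P n c).x = (B : Set (V d)) ∧ (X (edge y s)).2 = true} := rfl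
  rw [e1, e2, Len_ev hg]
  dsimp only
  by_cases hx : gx P (stt P n c) v B y s
  · rw [if_pos hx]
    set S : Set (V d) := (occ (stt P n c).H : Set (V d)) with hS
    have hmS : MeasurableSet (Occ P n c ∩ {X | cut Sᶜ (lo X) ∈
        {ζ : Cfg d | cluster ζ (stt P n c).x = (B : Set (V d))}} ∩
          {X | (X (edge y s)).2 = true}) :=
      ((meas_Occ P n c).inter (measurable_lo (measurable_cut Sᶜ
        (meas_cluster_eq (stt P n c).x (B : Set (V d)))))).inter (meas_up _)
    have e4 : ∫⁻ X in Occ P n c ∩ {X | cut Sᶜ (lo X) ∈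
        {ζ : Cfg d | cluster ζ (stt P n c).x = (B : Set (V d))}} ∩
          {X | (X (edge y s)).2 = true},
          (((pth (lo X) (stt P n c).x y).length : ℝ≥0∞) + 1) ∂(envM d P.p P.s) =
        ∫⁻ X in Occ P n c ∩ {X | cut Sᶜ (lo X) ∈
        {ζ : Cfg d | cluster ζ (stt P n c).x = (B : Set (V d))}} ∩
          {X | (X (edge y s)).2 = true},
          (fun ζ : Cfg d => (((pth ζ (stt P n c).x y).length : ℝ≥0∞) + 1)) (cut Sᶜ (lo X))
            ∂(envM d P.p P.s) := by
      refine setLIntegral_congr_fun hmS ?_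
      intro X hX
      dsimp only
      rw [Len_cut]
      · intro u hu
        exact Occ_cl hX.1.1 hg (by exact_mod_cast hu)
      · intro h
        exact good_notMem hg (by exact_mod_cast h)
    rw [e4, Len_snd h0 h1 hs0 hs1 (meas_Occ P n c) (Occ_dep P n c)
      (meas_cluster_eq (stt P n c).x (B : Set (V d))) (Len_jE hg hx)
      (pth_meas_fun (stt P n c).x y (fun l : List (Dir d) => ((l.length : ℝ≥0∞) + 1)))]
    have e5 : {ζ : Cfg d | cut Sᶜ ζ ∈
        {ζ : Cfg d | cluster ζ (stt P n c).x = (B : Set (V d))}} =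
        {ζ : Cfg d | cluster (cut Sᶜ ζ) (stt P n c).x = (B : Set (V d))} := rfl
    rw [e5]
    ring
  · rw [if_neg hx]
    ring

/-- the sum over the steps of the new part -/
lemma Len_sumq {P : Par d} (h0 : 0 ≤ P.p) (h1 : P.p ≤ 1) (M0 : ℝ≥0∞) (st : St d)
    (hM0 : ∀ v ∈ steps P.i0, nrm P st v ≤ M0) :
    ∑' q : Stp d, ((open Classical in if gx P st q.1 q.2.1 q.2.2.1 q.2.2.2 then
            nrm P st q.1 else 0) *
        ∫⁻ ζ in {ζ : Cfg d | cluster (cut ((occ st.H : Set (V d))ᶜ) ζ) st.x =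
            (q.2.1 : Set (V d))},
          (((pth (cut ((occ st.H : Set (V d))ᶜ) ζ) st.x
            q.2.2.1).length : ℝ≥0∞) + 1) ∂(perc d P.p)) ≤
      (steps P.i0).card * (2 * d) * (M0 * (∑' u : V d, tau d P.p u) ^ 2) := by
  classical
  set g : V d → Cfg d → ℝ≥0∞ := fun y ζ =>
    (((pth (cut ((occ st.H : Set (V d))ᶜ) ζ) st.x y).length : ℝ≥0∞) + 1) with hgd
  set I : Finset (V d) → V d → ℝ≥0∞ := fun B y =>
    ∫⁻ ζ in {ζ : Cfg d | cluster (cut ((occ st.H : Set (V d))ᶜ) ζ) st.x = (B : Set (V d))},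
      g y ζ ∂(perc d P.p) with hI
  have hgm : ∀ y, Measurable (g y) := fun y =>
    (pth_meas_fun st.x y (fun l : List (Dir d) => ((l.length : ℝ≥0∞) + 1))).comp
      (measurable_cut _)
  have hB : ∀ y : V d, ∑' B : Finset (V d), (if y ∈ B then I B y else 0) ≤
      ∫⁻ ζ in {ζ : Cfg d | y ∈ cluster (cut ((occ st.H : Set (V d))ᶜ) ζ) st.x},
        g y ζ ∂(perc d P.p) := by
    intro y
    have hm1 : ∀ B : Finset (V d), MeasurableSet
        {ζ : Cfg d | cluster (cut ((occ st.H : Set (V d))ᶜ) ζ) st.x = (B : Set (V d))} :=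
      fun B => meas_cl _ _ _
    have h2 : ∀ B : Finset (V d), (if y ∈ B then I B y else 0) =
        ∫⁻ ζ, (if y ∈ B then ({ζ : Cfg d | cluster (cut ((occ st.H : Set (V d))ᶜ) ζ) st.x =
          (B : Set (V d))}).indicator (g y) ζ else 0) ∂(perc d P.p) := by
      intro B
      by_cases hy : y ∈ B
      · simp only [if_pos hy]
        rw [lintegral_indicator (hm1 B)]
      · simp only [if_neg hy, lintegral_zero]
    simp_rw [h2]
    rw [← lintegral_tsum, ← lintegral_indicator (meas_off _ st.x y)]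
    · refine lintegral_mono fun ζ => ?_
      dsimp only
      set C := cluster (cut ((occ st.H : Set (V d))ᶜ) ζ) st.x with hC
      by_cases hfin : C.Finite
      · rw [tsum_eq_single hfin.toFinset]
        · by_cases hy : y ∈ hfin.toFinset
          · rw [if_pos hy]
            rw [Set.indicator_of_mem, Set.indicator_of_mem]
            · show y ∈ C
              exact (Set.Finite.mem_toFinset hfin).1 hy
            · show C = _
              rw [Set.Finite.coe_toFinset]
          · rw [if_neg hy]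
            exact zero_le
        · intro B hBne
          by_cases hy : y ∈ B
          · rw [if_pos hy, Set.indicator_of_notMem]
            intro h3
            apply hBne
            have h4 : C = (B : Set (V d)) := h3
            rw [← Finset.coe_inj, Set.Finite.coe_toFinset, h4]
          · rw [if_neg hy]
      · have h5 : (∑' B : Finset (V d), if y ∈ B then ({ζ : Cfg d |
            cluster (cut ((occ st.H : Set (V d))ᶜ) ζ) st.x =
            (B : Set (V d))}).indicator (g y) ζ else 0) = 0 := by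
          rw [ENNReal.tsum_eq_zero]
          intro B
          by_cases hy : y ∈ B
          · rw [if_pos hy, Set.indicator_of_notMem]
            intro h3
            apply hfin
            have h4 : C = (B : Set (V d)) := h3
            rw [h4]
            exact B.finite_toSet
          · rw [if_neg hy]
        rw [h5]
        exact zero_le
    · intro B
      by_cases hy : y ∈ B
      · simp only [if_pos hy]
        exact ((hgm y).indicator (hm1 B)).aemeasurable
      · simp only [if_neg hy]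
        exact aemeasurable_const
  -- pointwise bound
  have hpt : ∀ q : Stp d, ((if gx P st q.1 q.2.1 q.2.2.1 q.2.2.2 then nrm P st q.1 else 0) *
      I q.2.1 q.2.2.1) ≤ (if q.1 ∈ steps P.i0 then M0 else 0) *
        (if q.2.2.1 ∈ q.2.1 then I q.2.1 q.2.2.1 else 0) := by
    rintro ⟨v, B, y, s⟩
    dsimp only
    by_cases hx : gx P st v B y s
    · rw [if_pos hx, if_pos hx.1, if_pos hx.2.2.1]
      exact mul_le_mul' (hM0 v hx.1) le_rfl
    · rw [if_neg hx, zero_mul]
      exact zero_le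
  refine (ENNReal.tsum_le_tsum hpt).trans ?_
  rw [ENNReal.tsum_prod']
  have h6 : ∀ v : V d, (∑' q : Finset (V d) × V d × Dir d,
      (if (v, q).1 ∈ steps P.i0 then M0 else 0) *
        (if (v, q).2.2.1 ∈ (v, q).2.1 then I (v, q).2.1 (v, q).2.2.1 else 0)) =
      (if v ∈ steps P.i0 then M0 else 0) * ∑' q : Finset (V d) × V d × Dir d,
        (if q.2.1 ∈ q.1 then I q.1 q.2.1 else 0) := by
    intro v
    rw [← ENNReal.tsum_mul_left]
  rw [tsum_congr h6, ENNReal.tsum_mul_right]
  have h7 : (∑' v : V d, if v ∈ steps P.i0 then M0 else 0) = (steps P.i0).card * M0 := by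
    rw [tsum_eq_sum (s := steps P.i0)]
    · rw [Finset.sum_congr rfl fun v hv => if_pos hv, Finset.sum_const, nsmul_eq_mul]
    · intro v hv
      rw [if_neg hv]
  have h8 : (∑' q : Finset (V d) × V d × Dir d, (if q.2.1 ∈ q.1 then I q.1 q.2.1 else 0)) ≤
      2 * d * (∑' u : V d, tau d P.p u) ^ 2 := by
    rw [ENNReal.tsum_prod']
    have h9 : ∀ B : Finset (V d), (∑' r : V d × Dir d,
        (if (B, r).2.1 ∈ (B, r).1 then I (B, r).1 (B, r).2.1 else 0)) =
        2 * d * ∑' y : V d, (if y ∈ B then I B y else 0) := by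
      intro B
      rw [ENNReal.tsum_prod', ← ENNReal.tsum_mul_left]
      refine tsum_congr fun y => ?_
      dsimp only
      rw [tsum_fintype]
      have h10 : ∀ z : ℝ≥0∞, ∑ _b : Dir d, z = 2 * d * z := by
        intro z
        rw [Finset.sum_const, Finset.card_univ, nsmul_eq_mul]
        congr 1
        simp only [Fintype.card_prod, Fintype.card_fin, Fintype.card_bool]
        push_cast
        ring
      by_cases h1 : y ∈ B
      · simp only [if_pos h1]
        exact h10 _
      · simp only [if_neg h1]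
        exact h10 _
    rw [tsum_congr h9, ENNReal.tsum_mul_left, ENNReal.tsum_comm]
    refine mul_le_mul' le_rfl ?_
    refine (ENNReal.tsum_le_tsum hB).trans ?_
    exact pth_len h0 h1 (occ st.H) st.x
  rw [h7]
  calc (steps P.i0).card * M0 * ∑' q : Finset (V d) × V d × Dir d,
        (if q.2.1 ∈ q.1 then I q.1 q.2.1 else 0)
      ≤ (steps P.i0).card * M0 * (2 * d * (∑' u : V d, tau d P.p u) ^ 2) :=
        mul_le_mul' le_rfl h8
    _ = _ := by ring

theorem len_sum {P : Par d} (h0 : 0 ≤ P.p) (h1 : P.p ≤ 1) (hs0 : 0 ≤ P.s) (hs1 : P.s ≤ 1)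
    (hm : ∀ st, good P st → ∀ v ∈ steps P.i0, mm P st v ≠ 0) (M0 : ℝ≥0∞)
    (hM0 : ∀ st, good P st → ∀ v ∈ steps P.i0, nrm P st v ≤ M0) (n : ℕ) (x : V d) :
    sumS n x (fun c => wgt P n c * ∫⁻ X in Occ P n c, LS P (fun _ => 1) n c X ∂(envM d P.p P.s)) ≤
      n * ((steps P.i0).card * (2 * d) * (M0 * ENNReal.ofReal P.s * (∑' u : V d, tau d P.p u) ^ 2)) := by
  classical
  set K0 : ℝ≥0∞ := (steps P.i0).card * (2 * d) *
    (M0 * ENNReal.ofReal P.s * (∑' u : V d, tau d P.p u) ^ 2) with hK0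
  induction n with
  | zero =>
    have h2 : sumS 0 x (fun c : Ch d 0 => wgt P 0 c *
        ∫⁻ X in Occ P 0 c, LS P (fun _ => 1) 0 c X ∂(envM d P.p P.s)) = 0 := by
      unfold sumS
      rw [ENNReal.tsum_eq_zero]
      intro c
      have h3 : ∫⁻ X in Occ P 0 c, LS P (fun _ => 1) 0 c X ∂(envM d P.p P.s) = 0 := by
        have h4 : (fun X : Env d => LS P (fun _ => 1) 0 c X) = fun _ => 0 := rfl
        rw [h4, lintegral_zero]
      dsimp only
      split_ifs
      · exact (congrArg _ h3).trans (mul_zero _)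
      · rfl
    rw [h2]
    exact zero_le
  | succ n ih =>
    rw [sum_succ]
    have hstep : ∀ c : Ch d n, (∑' q : Stp d, wgt P (n + 1) ((c, q) : Ch d n × Stp d) *
        ∫⁻ X in Occ P (n + 1) ((c, q) : Ch d n × Stp d),
          LS P (fun _ => 1) (n + 1) ((c, q) : Ch d n × Stp d) X ∂(envM d P.p P.s)) ≤
        wgt P n c * ∫⁻ X in Occ P n c, LS P (fun _ => 1) n c X ∂(envM d P.p P.s) +
          K0 * wtc P (kern0 P) (ep0 P) n c := by
      intro c
      by_cases hw : wgt P n c = 0
      · have h3 : ∀ q : Stp d, wgt P (n + 1) ((c, q) : Ch d n × Stp d) = 0 := by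
          intro q
          have e1 : wgt P (n + 1) ((c, q) : Ch d n × Stp d) = wgt P n c *
            (if gx P (stt P n c) q.1 q.2.1 q.2.2.1 q.2.2.2 then nrm P (stt P n c) q.1 else 0) := rfl
          rw [e1, hw, zero_mul]
        simp only [h3, zero_mul, tsum_zero]
        exact zero_le
      have hg := wgt_good hw
      have h4 : ∀ q : Stp d, wgt P (n + 1) ((c, q) : Ch d n × Stp d) *
        ∫⁻ X in Occ P (n + 1) ((c, q) : Ch d n × Stp d),
          LS P (fun _ => 1) (n + 1) ((c, q) : Ch d n × Stp d) X ∂(envM d P.p P.s) =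
          wgt P (n + 1) ((c, q) : Ch d n × Stp d) *
            ∫⁻ X in Occ P (n + 1) ((c, q) : Ch d n × Stp d),
              LS P (fun _ => 1) n c X ∂(envM d P.p P.s) +
          wgt P (n + 1) ((c, q) : Ch d n × Stp d) *
            ∫⁻ X in Occ P (n + 1) ((c, q) : Ch d n × Stp d),
          (((pth (lo X) (stt P n c).x q.2.2.1).length : ℝ≥0∞) + 1) ∂(envM d P.p P.s) := by
        intro q
        rw [← mul_add, ← lintegral_add_left (LS_meas P (fun _ => 1) n c)]
        congr 1
        refine lintegral_congr fun X => ?_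
        show LS P (fun _ => 1) n c X + _ * 1 = _
        rw [mul_one]
      rw [tsum_congr h4, ENNReal.tsum_add]
      refine add_le_add ?_ ?_
      · rw [tsum_congr fun q => Len_old h0 h1 hs0 hs1 hw (fun _ => 1) q, ENNReal.tsum_mul_right,
          kk_sum h0 h1 _ (hm _ hg), one_mul]
      · rw [tsum_congr fun q => Len_new h0 h1 hs0 hs1 hw q, ENNReal.tsum_mul_left,
          ENNReal.tsum_mul_left]
        have h5 := Len_sumq h0 h1 M0 (stt P n c) (hM0 _ hg)
        have h6 := occ_one h0 h1 hs0 hs1 n c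
        rw [mul_comm (wgt P n c), h6]
        calc wtc P (kern0 P) (ep0 P) n c * (ENNReal.ofReal P.s * _)
            ≤ wtc P (kern0 P) (ep0 P) n c * (ENNReal.ofReal P.s *
              ((steps P.i0).card * (2 * d) * (M0 * (∑' u : V d, tau d P.p u) ^ 2))) :=
              mul_le_mul' le_rfl (mul_le_mul' le_rfl h5)
          _ = _ := by
            rw [hK0]
            ring
    have hsum : sumS n x (fun c => ∑' q : Stp d, wgt P (n + 1) ((c, q) : Ch d n × Stp d) *
        ∫⁻ X in Occ P (n + 1) ((c, q) : Ch d n × Stp d),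
          LS P (fun _ => 1) (n + 1) ((c, q) : Ch d n × Stp d) X ∂(envM d P.p P.s)) ≤
        sumS n x (fun c => wgt P n c *
          ∫⁻ X in Occ P n c, LS P (fun _ => 1) n c X ∂(envM d P.p P.s)) +
        K0 * sumS n x (wtc P (kern0 P) (ep0 P) n) := by
      unfold sumS
      rw [← ENNReal.tsum_mul_left, ← ENNReal.tsum_add]
      refine ENNReal.tsum_le_tsum fun c => ?_
      split_ifs
      · exact hstep c
      · rw [mul_zero, add_zero]
    refine hsum.trans ?_
    rw [wtc_sum h0 h1 hm n x, mul_one]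
    calc _ ≤ (n : ℝ≥0∞) * K0 + K0 := add_le_add ih le_rfl
      _ = ((n + 1 : ℕ) : ℝ≥0∞) * K0 := by
        push_cast
        ring

end H5CF
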