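import Pool.Agent.H5.CF.FlowEx
import Pool.Agent.H5.CF.Len
import Pool.Agent.H5.CF.DualF
import Pool.Agent.H70.CF.Two
import Pool.Agent.H70.CF.KerS
import Pool.Agent.H95.LBD.LawA

/-!
PROJECT CF (MP_0d9ad5_pr, note 2718, section 5), flow part (helper5). The flow bound.
-/

namespace H5CF

open CF H5DF H95LBD MeasureTheory
open scoped ENNReal

variable {d : ℕ}

theorem flow_bound (hd : 9 ≤ d) (κ A1 Λ c3 gr : ℝ) (hκ : 0 < κ) (hA1 : 0 < A1) (hΛ : 0 < Λ)
    (hc3 : 0 < c3) (hgr : 1 < gr) : ∃ (c : ℝ) (l0 : ℕ), 0 < c ∧ ∀ (l : ℕ) (P : Par d), l0 ≤ l →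
      Reg d κ A1 Λ c3 gr l P → P.s ≤ 1 → ∀ D : NNReal,
      HasDiffusivity d (1 - (1 - P.p) * (1 - P.s)) D →
        c / (P.L : ℝ) ^ 6 ≤ theta d (1 - (1 - P.p) * (1 - P.s)) * D := by
  obtain ⟨C2, l2, hC2, htwo⟩ := two_chain hd κ A1 Λ c3 gr hκ hA1 hΛ hc3 hgr
  obtain ⟨Ck, hCk, hker⟩ := ker_exp (d := d) (d - 2) (by omega)
  have hdpos : (0 : ℝ) < d := by
    have : 0 < d := by omega
    exact_mod_cast this
  obtain ⟨CT, hCT⟩ : ∃ CT : ℝ, CT = A1 * Ck / (4 * κ ^ 2) := ⟨_, rfl⟩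
  have hCTp : 0 < CT := by rw [hCT]; positivity
  obtain ⟨K8, hK8⟩ : ∃ K8 : ℝ, K8 = 16 * d * C2 * CT ^ 2 / c3 := ⟨_, rfl⟩
  have hK8p : 0 < K8 := by rw [hK8]; positivity
  refine ⟨2 / (d * K8), max l2 (Nat.ceil (2 * κ) + 1), by positivity, ?_⟩
  intro l P hl hR hs1 D hD
  have hl2 : l2 ≤ l := (le_max_left _ _).trans hl
  have hl3 : Nat.ceil (2 * κ) + 1 ≤ l := (le_max_right _ _).trans hl
  have hl1 : 1 ≤ l := hR.hl
  have hLl : l ≤ P.L := by
    rw [hR.L_eq]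
    calc l = l ^ 1 := (pow_one l).symm
      _ ≤ l ^ 7 := Nat.pow_le_pow_right hl1 (by norm_num)
  have hL1 : 1 ≤ P.L := hl1.trans hLl
  have hLp : (0 : ℝ) < P.L := by exact_mod_cast hL1
  have hL2κ : 2 * κ ≤ P.L := by
    have h2 : (2 * κ) ≤ (Nat.ceil (2 * κ) : ℝ) := Nat.le_ceil _
    have h3 : ((Nat.ceil (2 * κ) : ℕ) : ℝ) ≤ (P.L : ℝ) := by
      exact_mod_cast (by omega : Nat.ceil (2 * κ) ≤ P.L)
    linarith
  have h0 : 0 ≤ P.p := hR.tau.h0
  have h1 : P.p ≤ 1 := hR.tau.h1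
  have hs0 : 0 ≤ P.s := hR.s0
  have hsL : 0 < P.s * (P.L : ℝ) ^ 2 := lt_of_lt_of_le (by positivity) hR.K0
  have hsp : 0 < P.s := by
    rcases hs0.lt_or_eq with h | h
    · exact h
    · rw [← h, zero_mul] at hsL
      exact absurd hsL (lt_irrefl _)
  have hmp : 0 < c3 * P.s * (P.L : ℝ) ^ 2 := by positivity
  have hm : ∀ st, good P st → ∀ v ∈ steps P.i0, mm P st v ≠ 0 := by
    intro st hst v hv h
    have h2 := hR.mm_ge st hst v hv
    rw [h] at h2
    exact absurd (ENNReal.ofReal_eq_zero.1 (le_antisymm h2 zero_le)) (not_le.2 hmp)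
  -- the sum of the two-point function
  have hTT : ∑' u : V d, tau d P.p u ≤ ENNReal.ofReal (CT * (P.L : ℝ) ^ 2) := by
    have ht : P.t = κ / P.L := hR.t_eq
    have ht0 : 0 < 2 * P.t := by rw [ht]; positivity
    have ht1 : 2 * P.t ≤ 1 := by
      rw [ht, ← mul_div_assoc, div_le_one hLp]
      exact hL2κ
    have h2 := hker (2 * P.t) ht0 ht1
    have hexp : d - (d - 2) = 2 := by omega
    rw [hexp] at h2
    calc ∑' u : V d, tau d P.p u ≤ ∑' u : V d, ENNReal.ofReal A1 * ker (d - 2) (2 * P.t) u :=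
          ENNReal.tsum_le_tsum fun u => hR.tau.up u
      _ = ENNReal.ofReal A1 * ∑' u : V d, ker (d - 2) (2 * P.t) u := ENNReal.tsum_mul_left
      _ ≤ ENNReal.ofReal A1 * ENNReal.ofReal (Ck / (2 * P.t) ^ 2) := by gcongr
      _ = ENNReal.ofReal (CT * (P.L : ℝ) ^ 2) := by
          rw [← ENNReal.ofReal_mul hA1.le, hCT, ht]
          congr 1
          field_simp
          ring
  -- the normalisation
  set M0 : ℝ≥0∞ := ((steps P.i0).card : ℝ≥0∞)⁻¹ * (ENNReal.ofReal (c3 * P.s * (P.L : ℝ) ^ 2))⁻¹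
    with hM0
  have hnrm : ∀ st, good P st → ∀ v ∈ steps P.i0, nrm P st v ≤ M0 := fun st hst v hv =>
    Step_nrm_le (hR.mm_ge st hst v hv)
  have hKLb : ((steps P.i0).card : ℝ≥0∞) * (2 * d) *
      (M0 * ENNReal.ofReal P.s * (∑' u : V d, tau d P.p u) ^ 2) ≤
      ENNReal.ofReal (2 * d * CT ^ 2 / c3 * (P.L : ℝ) ^ 2) := by
    have hc : ((steps P.i0).card : ℝ≥0∞) ≠ 0 := by
      exact_mod_cast (steps_card_pos P.i0).ne'
    have hinv : ((steps P.i0).card : ℝ≥0∞) * ((steps P.i0).card : ℝ≥0∞)⁻¹ = 1 :=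
      ENNReal.mul_inv_cancel hc (ENNReal.natCast_ne_top _)
    calc ((steps P.i0).card : ℝ≥0∞) * (2 * d) *
          (M0 * ENNReal.ofReal P.s * (∑' u : V d, tau d P.p u) ^ 2)
        = (((steps P.i0).card : ℝ≥0∞) * ((steps P.i0).card : ℝ≥0∞)⁻¹) * ((2 * d) *
          ((ENNReal.ofReal (c3 * P.s * (P.L : ℝ) ^ 2))⁻¹ * ENNReal.ofReal P.s *
            (∑' u : V d, tau d P.p u) ^ 2)) := by
          rw [hM0]
          ring
      _ ≤ 1 * (ENNReal.ofReal (2 * d) * (ENNReal.ofReal ((c3 * P.s * (P.L : ℝ) ^ 2)⁻¹) *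
            ENNReal.ofReal P.s * (ENNReal.ofReal (CT * (P.L : ℝ) ^ 2)) ^ 2)) := by
          rw [hinv, ENNReal.ofReal_inv_of_pos hmp]
          have h2d : (2 * d : ℝ≥0∞) = ENNReal.ofReal (2 * d) := by
            rw [ENNReal.ofReal_mul zero_le_two, ENNReal.ofReal_natCast]
            simp
          rw [h2d]
          gcongr
      _ = ENNReal.ofReal (2 * d * CT ^ 2 / c3 * (P.L : ℝ) ^ 2) := by
          rw [one_mul, ← ENNReal.ofReal_pow (by positivity), ← ENNReal.ofReal_mul (by positivity),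
            ← ENNReal.ofReal_mul (by positivity), ← ENNReal.ofReal_mul (by positivity)]
          congr 1
          field_simp
  have hp0 : 0 ≤ 1 - (1 - P.p) * (1 - P.s) := by
    have : (1 - P.p) * (1 - P.s) ≤ 1 := by nlinarith
    linarith
  have hp1 : 1 - (1 - P.p) * (1 - P.s) ≤ 1 := by
    have : 0 ≤ (1 - P.p) * (1 - P.s) := mul_nonneg (by linarith) (by linarith)
    linarith
  have hpp := isProb_env (d := d) h0 h1 hs0 hs1
  have hmain := dual_flow P.i0 (1 - (1 - P.p) * (1 - P.s)) hp0 hp1 D hD (envM d P.p P.s)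
    shE measurable_shE (map_shE h0 h1 hs0 hs1) shE_zero shE_shE hi measurable_hi
    (map_hi h0 h1 hs0 hs1) hi_shE (K8 * (P.L : ℝ) ^ 8) (2 * P.L) 2 (by positivity) (by positivity)
    (by
      intro n
      refine flow_exists h0 h1 hs0 hs1 hL1 hm n (K8 * (P.L : ℝ) ^ 8 * (n + 1) ^ 2)
        (by positivity) (ENNReal.ofReal (C2 * (n + 1) * (P.L : ℝ) ^ 6))
        (n * (((steps P.i0).card : ℝ≥0∞) * (2 * d) *
          (M0 * ENNReal.ofReal P.s * (∑' u : V d, tau d P.p u) ^ 2)))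
        (fun Γ hΓ e he => htwo l P hl2 hR Γ hΓ n e he)
        (len_sum h0 h1 hs0 hs1 hm M0 hnrm n 0) ?_
      calc 8 * (ENNReal.ofReal (C2 * (n + 1) * (P.L : ℝ) ^ 6) *
            (n * (((steps P.i0).card : ℝ≥0∞) * (2 * d) *
            (M0 * ENNReal.ofReal P.s * (∑' u : V d, tau d P.p u) ^ 2))))
          ≤ ENNReal.ofReal 8 * (ENNReal.ofReal (C2 * (n + 1) * (P.L : ℝ) ^ 6) *
            (ENNReal.ofReal n * ENNReal.ofReal (2 * d * CT ^ 2 / c3 * (P.L : ℝ) ^ 2))) := by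
            rw [ENNReal.ofReal_natCast]
            have h8 : (8 : ℝ≥0∞) = ENNReal.ofReal 8 := by simp
            rw [h8]
            gcongr
        _ = ENNReal.ofReal (8 * (C2 * (n + 1) * (P.L : ℝ) ^ 6 *
              (n * (2 * d * CT ^ 2 / c3 * (P.L : ℝ) ^ 2)))) := by
            rw [← ENNReal.ofReal_mul (by positivity), ← ENNReal.ofReal_mul (by positivity),
              ← ENNReal.ofReal_mul (by positivity)]
        _ ≤ ENNReal.ofReal (K8 * (P.L : ℝ) ^ 8 * (n + 1) ^ 2) := by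
            refine ENNReal.ofReal_le_ofReal ?_
            have hn0 : (0 : ℝ) ≤ n := Nat.cast_nonneg n
            have e1 : 8 * (C2 * ((n : ℝ) + 1) * (P.L : ℝ) ^ 6 *
                (n * (2 * d * CT ^ 2 / c3 * (P.L : ℝ) ^ 2))) =
                K8 * (P.L : ℝ) ^ 8 * ((n + 1) * n) := by
              rw [hK8]
              ring
            rw [e1]
            refine mul_le_mul_of_nonneg_left ?_ (by positivity)
            nlinarith)
  -- conclusion
  have hfin : 2 / (d * K8) / (P.L : ℝ) ^ 6 =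
      ((2 * (P.L : ℝ)) ^ 2 / (K8 * (P.L : ℝ) ^ 8)) / (2 * d) := by
    field_simp
  rw [hfin, div_le_iff₀ (by positivity)]
  refine hmain.trans (le_of_eq ?_)
  ring

end H5CF
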