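import Pool.Agent.H5.CF.OccA
import Pool.Agent.H70.CF.Step
import Pool.Agent.H70.CF.Nrm

/-!
JOB CF-Nrm (MP_0d9ad5_pr, note 2718, section 2, flow part, owner helper5). Exact normalisation.
PROOF. `mm_fin`: `cnt P st v B ≤ #{(y, s) : y + step s ∈ cell} ≤ 2 d L^d` (`card_cell`), `cl_sum_le_one`.
`kk_sum`: for `v ∈ steps` the part with coarse step `v` is `mm * nrm = (card steps)⁻¹` (`Step_mm`, `0 < mm < ⊤`), for
`v ∉ steps` it is `0`. `sum_succ`: `ENNReal.tsum_prod'`. `wtc_sum`: induction on `n`: `wtc c' ≠ 0` implies that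
`stt P n c'` is good (`wtc_good`).
-/

namespace H5CF

open CF H5DF H95LBD MeasureTheory
open scoped ENNReal

variable {d : ℕ}

lemma mm_fin {P : Par d} (h0 : 0 ≤ P.p) (h1 : P.p ≤ 1) (st : St d) (v : V d) :
    mm P st v ≠ ⊤ :=
  mm_ne_top P h0 h1 st v

lemma kk_sum {P : Par d} (h0 : 0 ≤ P.p) (h1 : P.p ≤ 1) (st : St d)
    (hm : ∀ v ∈ steps P.i0, mm P st v ≠ 0) :
    ∑' q : Stp d, kk P (kern0 P) (ep0 P) st q = 1 := by
  have h := Op_one P h0 h1 st hm
  unfold Op at h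
  simp only [mul_one] at h
  exact h

lemma sum_succ (n : ℕ) (x : V d) (F : Ch d (n + 1) → ℝ≥0∞) :
    sumS (n + 1) x F = sumS n x fun c => ∑' q : Stp d, F (c, q) := by
  classical
  unfold sumS
  rw [tsum_Ch_succ]
  refine tsum_congr fun c => ?_
  change ∑' q : Stp d, (if sta n c = x then F (c, q) else 0) = _
  by_cases h : sta n c = x
  · rw [if_pos h]
    exact tsum_congr fun q => if_pos h
  · rw [if_neg h]
    exact ENNReal.tsum_eq_zero.2 fun q => if_neg h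

lemma wtc_good {P : Par d} {kern : St d → Finset (V d) → ℝ≥0∞} {ep : V d → Dir d → ℝ≥0∞} {n : ℕ}
    {c : Ch d n} (h : wtc P kern ep n c ≠ 0) : good P (stt P n c) :=
  CF.wtc_good h

lemma nrm_ne_top {P : Par d} {st : St d} {v : V d} (h : mm P st v ≠ 0) : nrm P st v ≠ ⊤ := by
  unfold nrm
  refine ENNReal.inv_ne_top.2 (mul_ne_zero ?_ h)
  exact_mod_cast (steps_card_pos P.i0).ne'

lemma wgt_ne_top {P : Par d} (hm : ∀ st, good P st → ∀ v ∈ steps P.i0, mm P st v ≠ 0) (n : ℕ)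
    (c : Ch d n) : wgt P n c ≠ ⊤ := by
  classical
  induction n with
  | zero => exact ENNReal.one_ne_top
  | succ n ih =>
    change wgt P n c.1 *
      (if gx P (stt P n c.1) c.2.1 c.2.2.1 c.2.2.2.1 c.2.2.2.2 then
        nrm P (stt P n c.1) c.2.1 else 0) ≠ ⊤
    by_cases h : wgt P n c.1 = 0
    · rw [h, zero_mul]
      exact ENNReal.zero_ne_top
    · have hg : good P (stt P n c.1) := CF.wgt_good h
      refine ENNReal.mul_ne_top (ih c.1) ?_
      by_cases hx : gx P (stt P n c.1) c.2.1 c.2.2.1 c.2.2.2.1 c.2.2.2.2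
      · rw [if_pos hx]
        exact nrm_ne_top (hm _ hg _ hx.1)
      · rw [if_neg hx]
        exact ENNReal.zero_ne_top

theorem wtc_sum {P : Par d} (h0 : 0 ≤ P.p) (h1 : P.p ≤ 1)
    (hm : ∀ st, good P st → ∀ v ∈ steps P.i0, mm P st v ≠ 0) (n : ℕ) (x : V d) :
    sumS n x (wtc P (kern0 P) (ep0 P) n) = 1 := by
  have h := tot_one P h0 h1 hm x n
  unfold sumS
  rw [← h]

end H5CF
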