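import Pool.Agent.H5.CF.FDef
import Pool.Agent.H5.CF.Ind

/-!
JOB CF-OccA (MP_0d9ad5_pr, note 2718, flow part, owner helper5). The events `Occ P n c`.
PROOF. All by induction on `n` (unfold `Occ`, `stt`, `nxt`, `junc`, `occ`). `wgt_good`: `good_nxt`. `Occ_cl`: `mem_occ`,
`Occ_ent`, `cluster_eq_of_mem`. `Occ_dep`: the event `cluster (lo X) x = B` only depends on the lower marks of the
edges touching `B` (`cluster_congr`, `edge_mem_touch`); the new linking edge is in `jE` of the new state (its
first case, with `edge_opp` not needed: `a = y`, `t = s`), the old ones by the last case of `junc`; `Dep.mono`,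
`Dep.inter`. `jE_touch`: `junc_spec` (one end in `occ st.H`), `edge_mem_touch`, `edge_opp`.
`edge_eq`: `edge a t = edge y s` iff the two edges have the same ends.
-/

namespace H5CF

open CF H5DF H95LBD MeasureTheory
open scoped ENNReal

variable {d : ℕ}

lemma OccA_opp_opp (s : Dir d) : opp (opp s) = s := by
  obtain ⟨i, b⟩ := s
  simp [opp]

lemma edge_eq {a y : V d} {t s : Dir d} (h : edge a t = edge y s) :
    (a = y ∧ t = s) ∨ (a = y + step s ∧ t = opp s) := by
  obtain ⟨i, b⟩ := t
  obtain ⟨j, c⟩ := s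
  cases b <;> cases c
  · left
    have h1 : a + step (i, false) = y + step (j, false) := congrArg Prod.fst h
    have h2 : i = j := congrArg Prod.snd h
    subst h2
    exact ⟨add_right_cancel h1, rfl⟩
  · right
    have h1 : a + step (i, false) = y := congrArg Prod.fst h
    have h2 : i = j := congrArg Prod.snd h
    subst h2
    refine ⟨?_, rfl⟩
    have h3 := step_opp (d := d) (i, true)
    simp only [opp, Bool.not_true] at h3
    rw [← h1, h3]
    abel
  · right
    have h1 : a = y + step (j, false) := congrArg Prod.fst h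
    have h2 : i = j := congrArg Prod.snd h
    subst h2
    exact ⟨h1, rfl⟩
  · left
    have h1 : a = y := congrArg Prod.fst h
    have h2 : i = j := congrArg Prod.snd h
    subst h2
    exact ⟨h1, rfl⟩

/-- `junc` only depends on the edge -/
lemma mem_jE {st : St d} {y : V d} {s : Dir d} :
    edge y s ∈ jE st ↔ junc st.x st.H y (y + step s) := by
  constructor
  · rintro ⟨a, t, h, hj⟩
    rcases edge_eq h with ⟨rfl, rfl⟩ | ⟨rfl, rfl⟩
    · exact hj
    · have h1 : a + step t + step (opp t) = a := by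
        rw [step_opp]
        abel
      rw [h1]
      exact junc_symm hj
  · intro h
    exact ⟨y, s, rfl, h⟩

lemma jE_touch {P : Par d} {st : St d} (h : good P st) :
    jE st ⊆ touch (occ st.H : Set (V d)) := by
  rintro b ⟨a, t, rfl, hj⟩
  rcases (junc_spec h hj).2.1 with h1 | h1
  · exact edge_mem_touch (by exact_mod_cast h1) t
  · rw [← edge_opp]
    exact edge_mem_touch (by exact_mod_cast h1) (opp t)

lemma meas_Occ (P : Par d) (n : ℕ) (c : Ch d n) : MeasurableSet (Occ P n c) := by
  induction n with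
  | zero => exact MeasurableSet.univ
  | succ n ih =>
    have h1 : MeasurableSet {X : Env d |
        cluster (lo X) (stt P n c.1).x = (c.2.2.1 : Set (V d))} :=
      measurable_lo (meas_cluster_eq (stt P n c.1).x (c.2.2.1 : Set (V d)))
    exact (ih c.1).inter (h1.inter (meas_up _))

lemma wgt_good {P : Par d} {n : ℕ} {c : Ch d n} (h : wgt P n c ≠ 0) : good P (stt P n c) := by
  classical
  induction n with
  | zero => exact good_start P c
  | succ n ih =>
    have h1 : wgt P n c.1 *
      (if gx P (stt P n c.1) c.2.1 c.2.2.1 c.2.2.2.1 c.2.2.2.2 then nrm P (stt P n c.1) c.2.1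
        else 0) ≠ 0 := h
    have h2 := left_ne_zero_of_mul h1
    have h3 := right_ne_zero_of_mul h1
    have h4 : gx P (stt P n c.1) c.2.1 c.2.2.1 c.2.2.2.1 c.2.2.2.2 := by
      by_contra hg
      rw [if_neg hg] at h3
      exact h3 rfl
    exact good_nxt (ih h2) h4

lemma Occ_ent {P : Par d} {n : ℕ} {c : Ch d n} {X : Env d} (hX : X ∈ Occ P n c) {e : Ent d}
    (he : e ∈ (stt P n c).H) : cluster (lo X) e.x = (e.A : Set (V d)) := by
  induction n with
  | zero => exact absurd he List.not_mem_nil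
  | succ n ih =>
    obtain ⟨hX1, hX2, -⟩ := hX
    have he' : e ∈ ⟨(stt P n c.1).z, (stt P n c.1).x, c.2.2.1, c.2.2.2.1⟩ ::
      (stt P n c.1).H := he
    rcases List.mem_cons.1 he' with rfl | he2
    · exact hX2
    · exact ih hX1 he2

lemma OccA_junc_new {st : St d} {y : V d} {s : Dir d} {z : V d} {B : Finset (V d)} {b : Ed d}
    (h : b ∈ jE ⟨z, y + step s, ⟨st.z, st.x, B, y⟩ :: st.H⟩) : b = edge y s ∨ b ∈ jE st := by
  obtain ⟨a, t, rfl, hj⟩ := h
  have hj' : (a = y ∧ a + step t = y + step s) ∨ (a = y + step s ∧ a + step t = y) ∨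
    junc st.x st.H a (a + step t) := hj
  rcases hj' with ⟨rfl, h1⟩ | ⟨rfl, h1⟩ | h1
  · left
    rw [geo_step_inj (add_left_cancel h1)]
  · left
    have h2 : step t = step (opp s) := by
      rw [step_opp]
      have h3 : y + (step s + step t) = y + 0 := by
        rw [← add_assoc, h1, add_zero]
      exact eq_neg_of_add_eq_zero_right (add_left_cancel h3)
    rw [geo_step_inj h2, edge_opp]
  · exact Or.inr ⟨a, t, rfl, h1⟩

lemma Occ_junc {P : Par d} {n : ℕ} {c : Ch d n} {X : Env d} (hX : X ∈ Occ P n c) {b : Ed d}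
    (hb : b ∈ jE (stt P n c)) : (X b).2 = true := by
  induction n with
  | zero =>
    obtain ⟨a, t, -, hj⟩ := hb
    exact absurd hj (fun h => h)
  | succ n ih =>
    obtain ⟨hX1, -, hX3⟩ := hX
    rcases OccA_junc_new (st := stt P n c.1) (y := c.2.2.2.1) (s := c.2.2.2.2)
      (B := c.2.2.1) hb with rfl | h1
    · exact hX3
    · exact ih hX1 h1

lemma Occ_cl {P : Par d} {n : ℕ} {c : Ch d n} {X : Env d} (hX : X ∈ Occ P n c)
    (hg : good P (stt P n c)) {u : V d} (hu : u ∈ occ (stt P n c).H) :
    cluster (lo X) u ⊆ (occ (stt P n c).H : Set (V d)) := by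
  obtain ⟨e, he, hue⟩ := mem_occ.1 hu
  have h1 := Occ_ent hX he
  have h2 : u ∈ cluster (lo X) e.x := by
    rw [h1]
    exact_mod_cast hue
  rw [cluster_eq_of_mem h2, h1]
  intro w hw
  have hw' : w ∈ e.A := by exact_mod_cast hw
  have h3 : w ∈ occ (stt P n c).H := mem_occ.2 ⟨e, he, hw'⟩
  exact_mod_cast h3

lemma OccA_touch_mono {C C' : Set (V d)} (h : C ⊆ C') : touch C ⊆ touch C' := by
  rintro e (he | he)
  · exact Or.inl (h he)
  · exact Or.inr (h he)

lemma Occ_dep (P : Par d) (n : ℕ) (c : Ch d n) :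
    Dep (touch (occ (stt P n c).H : Set (V d))) (jE (stt P n c)) (Occ P n c) := by
  induction n with
  | zero => exact Dep.univ _ _
  | succ n ih =>
    have hocc : (occ (stt P (n + 1) c).H : Finset (V d)) = c.2.2.1 ∪ occ (stt P n c.1).H := rfl
    have hs1 : (occ (stt P n c.1).H : Set (V d)) ⊆ (occ (stt P (n + 1) c).H : Set (V d)) := by
      rw [hocc]
      intro w hw
      rw [Finset.mem_coe] at hw ⊢
      exact Finset.mem_union_right _ hw
    have hs2 : (c.2.2.1 : Set (V d)) ⊆ (occ (stt P (n + 1) c).H : Set (V d)) := by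
      rw [hocc]
      intro w hw
      rw [Finset.mem_coe] at hw ⊢
      exact Finset.mem_union_left _ hw
    have hj1 : jE (stt P n c.1) ⊆ jE (stt P (n + 1) c) := by
      rintro b ⟨a, t, rfl, hj⟩
      exact ⟨a, t, rfl, Or.inr (Or.inr hj)⟩
    have hj2 : edge c.2.2.2.1 c.2.2.2.2 ∈ jE (stt P (n + 1) c) :=
      ⟨c.2.2.2.1, c.2.2.2.2, rfl, Or.inl ⟨rfl, rfl⟩⟩
    refine Dep.inter ((ih c.1).mono (OccA_touch_mono hs1) hj1) ?_
    rintro X X' hF hK ⟨h1, h2⟩
    refine ⟨?_, ?_⟩
    · refine cluster_congr h1 fun u hu s => ?_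
      exact hF _ (edge_mem_touch (hs2 hu) s)
    · rw [← hK _ hj2]
      exact h2

end H5CF
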